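import Pool.Agent.Helper69.QG.Sur
import Pool.Agent.Helper89.QG.M_TIT
import Pool.Agent.Helper74.QG.M_DIH
import Pool.Agent.Helper60.QG.M_PBD
import Pool.Agent.Helper32.QG.M_CLS
import Pool.Agent.Helper26.QG.M_STZ
import Pool.Agent.Helper51.QG.M_LFZ
import Pool.Agent.Helper5.QG.M_CVR
import Pool.Agent.Helper66.QG.M_LFN
import Pool.Agent.Helper52.QG.M_CTA
import Pool.Agent.Helper10.QG.M_PCH
import Pool.Agent.Helper95.QG.M_EVL
import Pool.Agent.Helper48.QG.M_AUT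
import Pool.Agent.Helper60.QG.M_FLD
import Pool.Agent.Helper16.QG.M_FLC
import Pool.Agent.Helper28.QG.M_PSX
import Pool.Agent.Helper5.QG.M_SHE
import Pool.Agent.Helper42.QG.M_SHH
import Pool.Agent.Helper33.QG.M_AFF
import Pool.Agent.Helper72.QG.M_WRD
import Pool.Agent.Helper8.QG.M_PRM
import Pool.Agent.Helper6.QG.M_RPT
import Pool.Agent.Helper49.QG.M_IOT
import Pool.Agent.Helper76.QG.M_GNG
import Pool.Agent.Helper81.QG.M_SLM
import Pool.Agent.Helper33.QG.M_CHS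
import Pool.Agent.Helper11.QG.M_FPF
import Pool.Agent.Helper33.QG.M_LPL
import Pool.Agent.Helper76.QG.M_LPS
import Pool.Agent.Helper11.QG.M_TNL
import Pool.Agent.Helper32.QG.M_DTL
import Pool.Agent.Helper97.QG.M_WLP
import Pool.Agent.Helper24.QG.M_SLP
import Pool.Agent.Helper33.QG.M_FCH

/-!
# Project QD, part C, geometric half: all modules, theorem `gpa_ : St_GPA` without hypotheses
-/

set_option autoImplicit false

namespace Pool.Agent.Helper69.QG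

theorem tit_ : St_TIT := Pool.Agent.Helper89.QG.cTIT
theorem dih_ : St_DIH := Pool.Agent.Helper74.QG.cDIH
theorem pbd_ : St_PBD := Pool.Agent.Helper60.QG.cPBD
theorem cls_ : St_CLS := Pool.Agent.Helper32.QG.cCLS tit_ dih_ pbd_
theorem stz_ : St_STZ := Pool.Agent.Helper26.QG.cSTZ cls_
theorem lfz_ : St_LFZ := Pool.Agent.Helper51.QG.cLFZ stz_
theorem cvr_ : St_CVR := Pool.Agent.Helper5.QG.cCVR pbd_ lfz_
theorem lfn_ : St_LFN := Pool.Agent.Helper66.QG.cLFN pbd_ lfz_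
theorem cta_ : St_CTA := Pool.Agent.Helper52.QG.cCTA
theorem pch_ : St_PCH := Pool.Agent.Helper10.QG.cPCH pbd_
theorem evl_ : St_EVL := Pool.Agent.Helper95.QG.cEVL
theorem aut_ : St_AUT := Pool.Agent.Helper48.QG.cAUT evl_
theorem fld_ : St_FLD := Pool.Agent.Helper60.QG.cFLD stz_ cvr_ evl_
theorem flc_ : St_FLC := Pool.Agent.Helper16.QG.cFLC pbd_ cvr_ lfn_ cta_ evl_
theorem psx_ : St_PSX := Pool.Agent.Helper28.QG.cPSX pch_ fld_ flc_ cvr_ evl_
theorem she_ : St_SHE := Pool.Agent.Helper5.QG.cSHE pch_ aut_ fld_ flc_ cta_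
theorem shh_ : St_SHH := Pool.Agent.Helper42.QG.cSHH pch_ evl_ cvr_ cta_ she_
theorem aff_ : St_AFF := Pool.Agent.Helper33.QG.cAFF pbd_ pch_ evl_ cvr_ aut_ cta_ shh_
theorem wrd_ : St_WRD := Pool.Agent.Helper72.QG.cWRD
theorem prm_ : St_PRM := Pool.Agent.Helper8.QG.cPRM
theorem rpt_ : St_RPT := Pool.Agent.Helper6.QG.cRPT
theorem iot_ : St_IOT := Pool.Agent.Helper49.QG.cIOT evl_ wrd_ prm_ rpt_
theorem gng_ : St_GNG := Pool.Agent.Helper76.QG.cGNG wrd_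
theorem slm_ : St_SLM := Pool.Agent.Helper81.QG.cSLM wrd_
theorem chs_ : St_CHS := Pool.Agent.Helper33.QG.cCHS evl_
theorem fpf_ : St_FPF := Pool.Agent.Helper11.QG.cFPF stz_ cvr_ pch_
theorem lpl_ : St_LPL := Pool.Agent.Helper33.QG.cLPL
theorem lps_ : St_LPS := Pool.Agent.Helper76.QG.cLPS pbd_ cvr_ lfn_ cta_ evl_ lpl_
theorem tnl_ : St_TNL := Pool.Agent.Helper11.QG.cTNL pbd_ cvr_ cta_ evl_
theorem dtl_ : St_DTL := Pool.Agent.Helper32.QG.cDTL pbd_ cta_ evl_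
theorem wlp_ : St_WLP := Pool.Agent.Helper97.QG.cWLP
theorem slp_ : St_SLP := Pool.Agent.Helper24.QG.cSLP lps_ tnl_ dtl_ wlp_
theorem fch_ : St_FCH := Pool.Agent.Helper33.QG.cFCH pbd_ cvr_ lfn_ cta_
theorem sur_ : St_SUR := sur iot_ gng_ slm_ fpf_ chs_
theorem gpa_ : St_GPA := gpa cta_ pbd_ pch_ psx_ aff_ sur_ slp_ fch_

end Pool.Agent.Helper69.QG
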