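import Pool.Agent.Helper69.QG.St3
import Pool.Agent.Helper68.QC.Defs
import Pool.Agent.Helper20.QD.Defs

/-!
# Project QD, part C, geometric half: regularity of the folding map and the final package.
`dz`, `dzb`, `WD`, `Sol`, `Bel` are those of part M (Pool/Agent/Helper68/QC/Defs.lean; calculus:
Cal.lean in the same folder), `mob`, `Fuch`, `IsSU` those of part B (Pool/Agent/Helper20/QD/Defs.lean).
-/

open Complex Set Metric MeasureTheory Filter Topology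
open scoped ComplexConjugate

namespace Pool.Agent.Helper69.QG

open Pool.Agent.Helper35.PM
open Pool.Agent.Helper68.QC (dz dzb WD Sol Bel L2 Tst)

open Classical in
/-- Extension of the folding map to the plane by `0`. -/
noncomputable def PsE (Psi : DD → ℂ) (z : ℂ) : ℂ :=
  if h : z ∈ ball (0 : ℂ) 1 then Psi ⟨z, h⟩ else 0

/-- **LPL** (Lipschitz on a finite closed cover).  Let `x, y ∈ C`, `γ t = x + t (y - x)`, `t ∈ [0,1]`.
Claim, by induction on the cardinality of a finite set `I` of indices: if `γ '' [a,b] ⊆ ⋃_{i∈I} K i`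
then `‖f (γ a) - f (γ b)‖ ≤ L ‖γ a - γ b‖`.  Let `γ a ∈ K i`, `t₁ = sup {t ∈ [a,b] : γ t ∈ K i}`,
attained (closed set).  `‖f (γ a) - f (γ t₁)‖ ≤ L ‖γ a - γ t₁‖`.  If `t₁ < b`: `(t₁, b]` is covered by
the `K j`, `j ∈ I \ {i}`, hence so is `[t₁, b]` (a finite union of closed sets); induction;
`‖γ a - γ t₁‖ + ‖γ t₁ - γ b‖ = ‖γ a - γ b‖`. -/
def St_LPL : Prop :=
  ∀ (n : ℕ) (K : Fin n → Set ℂ) (C : Set ℂ) (f : ℂ → ℂ) (L : ℝ), 0 ≤ L → Convex ℝ C →
    (∀ i, ∃ K' : Set ℂ, IsClosed K' ∧ K i ∩ C = K' ∩ C) → C ⊆ ⋃ i, K i →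
    (∀ i, ∀ x ∈ K i ∩ C, ∀ y ∈ K i ∩ C, ‖f x - f y‖ ≤ L * ‖x - y‖) →
    ∀ x ∈ C, ∀ y ∈ C, ‖f x - f y‖ ≤ L * ‖x - y‖

/-- **LPS** (the folding map is locally Lipschitz).  `C = closedBall 0 r` (`0 ≤ r < 1`; nothing to
prove for `r < 0`).  By St_LFN only finitely many `w` have `act w '' Pc` meeting `C`; these sets
(closed in the disc: compact) cover `C` (St_CVR).  On `act w '' Pc` (`w` even, `act w⁻¹` the Moebius
map `m` of St_CTA) `PsE = flat w ∘ psi ∘ m`: `flat w` is an isometry of `ℂ`, `psi` and `m` are `C¹` on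
the disc, so the smooth function `psi ∘ m` is Lipschitz on the compact convex set `C`
(`Convex.norm_image_sub_le_of_norm_fderiv_le`, the derivative is bounded on `C`; `m` is `C¹` on a
neighbourhood of `C`, `psi` is real analytic on `ℂ`); `w` odd: `psi ∘ m ∘ conj`.  St_LPL with the
maximum of the finitely many constants. -/
def St_LPS : Prop :=
  ∀ Psi, IsPsi Psi → ∀ r : ℝ, r < 1 → ∃ L : ℝ, 0 ≤ L ∧ ∀ x y : ℂ, ‖x‖ ≤ r → ‖y‖ ≤ r →
    ‖PsE Psi x - PsE Psi y‖ ≤ L * ‖x - y‖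

/-- **TNL** (open tiles cover almost everything).  The exceptional set is contained in
`⋃_w act w '' (Pc \ Po)` (St_CVR), a countable union (`W` is countable: finitely generated).
`Pc \ Po` is contained in `{re = 0} ∪ {im = 0} ∪ {‖z - C0‖² = C0² - 1} ∪ {‖z - i C0‖² = C0² - 1}`
(St_PBD: `‖z - C0‖² - (C0² - 1) = 1 + ‖z‖² - 2 C0 re z`), a null set (two lines, two circles:
`Measure.addHaar_sphere`, `Measure.addHaar_affineSubspace` or graphs).  `act w` is the restriction of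
a map differentiable on the disc (St_CTA), which maps null sets of the disc to null sets
(`addHaar_image_eq_zero_of_differentiableOn_of_addHaar_eq_zero`). -/
def St_TNL : Prop :=
  volume {z : ℂ | ∃ h : z ∈ ball (0 : ℂ) 1, ¬ ∃ w : W, act w ⟨z, h⟩ ∈ Po} = 0

/-- **DTL** (derivative on the open tiles).  `act w z = p ∈ Po`; `Po` is open, so near `z` one has
`act w z' ∈ Po` and `Psi z' = flat w⁻¹ (psi (act w z'))`.  `psi p = (2/tau) p/(1+‖p‖²)`:
`psi_z = (2/tau)/(1+‖p‖²)²`, `psi_z̄ = -(2/tau) p²/(1+‖p‖²)²`, so `|psi_z̄| = ‖p‖² |psi_z|`,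
`‖p‖² ≤ √2 - 1` (St_PBD).  `w` even: `act w = m` Moebius, `flat w⁻¹ u = ± u + t`:
`dz = ± psi_z(m z) m'(z)`, `dzb = ± psi_z̄(m z) conj (m'(z))`.  `w` odd: `act w z = m (conj z)`,
`flat w⁻¹ u = ± conj u + t`, and for `g(z) = conj (G (conj z))`, `G = psi ∘ m`:
`dz g z = conj (dz G (conj z))`, `dzb g z = conj (dzb G (conj z))`.  (`flat w` for even `w` is
`u ↦ ± u + t`: St_EVL generation, generators `u + 2`, `-u`, `-u + 2i`.) -/
def St_DTL : Prop :=
  ∀ Psi, IsPsi Psi → ∀ (w : W) (z : DD), act w z ∈ Po →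
    DifferentiableAt ℝ (PsE Psi) z ∧ dz (PsE Psi) z ≠ 0 ∧
      ‖dzb (PsE Psi) z‖ ≤ (Real.sqrt 2 - 1) * ‖dz (PsE Psi) z‖

/-- **WLP** (weak derivatives of locally Lipschitz functions).  Let `φ ∈ Tst U`, `K = tsupport φ`;
`χ` smooth, compactly supported in `U`, `χ = 1` on a neighbourhood of `K`; `g = χ f` is Lipschitz on
`ℂ` (it is Lipschitz on a compact neighbourhood in `U` of its support and vanishes outside the
support: if `x` in the support, `y` not in the neighbourhood, `‖x - y‖ ≥ δ` and `g` is bounded).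
`g = f` near `K`, so `∫ f dz φ = ∫ g dz φ`, `∫ dz f φ = ∫ dz g φ`.  Real and imaginary parts:
`LipschitzWith.integral_lineDeriv_mul_eq` (Mathlib, Analysis/Calculus/Rademacher.lean) for
`v = 1, I`, and `lineDeriv ℝ g x v = fderiv ℝ g x v` almost everywhere
(`LipschitzWith.ae_differentiableAt`).  `L²`: `‖fderiv‖ ≤ L` at interior points of a compact set where
`f` is `L`-Lipschitz (`fderiv` measurable: `measurable_fderiv` needs `f` arbitrary in a complete space,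
fine); cover the compact `K` by a compact neighbourhood in `U`. -/
def St_WLP : Prop :=
  ∀ (U : Set ℂ) (f : ℂ → ℂ), IsOpen U →
    (∀ K ⊆ U, IsCompact K → ∃ L : ℝ, ∀ x ∈ K, ∀ y ∈ K, ‖f x - f y‖ ≤ L * ‖x - y‖) →
    WD U f (dz f) (dzb f)

/-- **SLP** (the folding map solves a Beltrami equation).  `mu0 z = dzb F z/dz F z` if
`dz F z ≠ 0` and `‖dzb F z‖ ≤ (√2-1) ‖dz F z‖`, else `0`, `F = PsE Psi`: measurable
(`measurable_fderiv`), bounded.  WD by St_WLP and St_LPS (a compact subset of the disc is in a closed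
ball of radius `< 1`); the equation holds almost everywhere in the disc by St_TNL and St_DTL. -/
def St_SLP : Prop :=
  ∀ Psi, IsPsi Psi → ∃ mu0 : ℂ → ℂ, Bel (Real.sqrt 2 - 1) mu0 ∧
    Sol mu0 (ball (0 : ℂ) 1) (PsE Psi)

/-- **FCH** (Fuchsian group).  *Discrete*: `0 ∈ Pc`.  With `p = s x 0 0`, `q = s x 0 1`:
`‖p‖² - ‖q‖² = 1` (determinant), `hs = 2(‖p‖² + ‖q‖²)`, `‖act (ι x) 0‖ = ‖q‖/‖p‖`; so `hs ≤ X` gives
`‖act (ι x) 0‖ ≤ r(X) < 1`, finitely many `ι x` (St_LFN), `ι` injective.  *Cocompact*: `z` in the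
disc, `act w z ∈ Pc` (St_CVR), `w⁻¹ = ι x t`, `t ∈ T`: `act (ι x⁻¹) z = act t (act w z)`, in the
compact set `⋃_{t∈T} act t '' Pc`. -/
def St_FCH : Prop :=
  ∀ (S : Type) [Group S] (ι : S →* W) (s : S →* SL), Function.Injective ι →
    (∃ T : Finset W, ∀ w : W, ∃ x, ∃ t ∈ T, w = ι x * t) →
    (∀ x, ((s x : Mat) 1 0 = conj ((s x : Mat) 0 1)) ∧ ((s x : Mat) 1 1 = conj ((s x : Mat) 0 0)) ∧
      ∀ z : DD, ((act (ι x) z : DD) : ℂ) =
        ((s x : Mat) 0 0 * z + (s x : Mat) 0 1) / ((s x : Mat) 1 0 * z + (s x : Mat) 1 1)) →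
    Pool.Agent.Helper20.QD.Fuch s

open Pool.Agent.Helper20.QD in
/-- **GPA** (the final package; assembly: helper69).  Everything on `D = ball 0 1` in `ℂ`. -/
def St_GPA : Prop :=
  ∀ g : ℕ, 2 ≤ g → ∃ (s : SurfaceGroup g →* SL) (Psi mu0 : ℂ → ℂ) (N : Subgroup (SurfaceGroup g)),
    Fuch s ∧ (∀ x, x ≠ 1 → ∀ z ∈ D, mob (s x) z ≠ z) ∧ ContinuousOn Psi D ∧
    Bel (Real.sqrt 2 - 1) mu0 ∧ Sol mu0 D Psi ∧
    (∀ x, ∃ c : ℂ, ∀ z ∈ D, Psi (mob (s x) z) = Psi z + c) ∧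
    (∃ z ∈ D, ∃ w ∈ D, Psi z ≠ Psi w) ∧ N.FiniteIndex ∧ N.Normal ∧
    ∀ γ : Matrix.SpecialLinearGroup (Fin 2) ℤ, ∃ (H H' : ℂ → ℂ) (v : ℂ) (φ : N ≃* N),
      MapsTo H D D ∧ MapsTo H' D D ∧ ContinuousOn H D ∧ ContinuousOn H' D ∧
      (∀ z ∈ D, H' (H z) = z) ∧ (∀ z ∈ D, H (H' z) = z) ∧
      (∀ z ∈ D, Psi (H z) = slin γ (Psi z) + v) ∧
      ∀ (n : N), ∀ z ∈ D, H (mob (s n) z) = mob (s (φ n : N)) (H z)

end Pool.Agent.Helper69.QG
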