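import Pool.Agent.Helper69.QG.Bas

/-! # Project QD, part C, geometric half: the action on the disc -/

open Complex Set Metric
open scoped ComplexConjugate

namespace Pool.Agent.Helper69.QG

/-- Map from the disc to the hyperboloid. -/
noncomputable def Xm (z : ℂ) : V3 :=
  ![(1 + ‖z‖ ^ 2) / (1 - ‖z‖ ^ 2), 2 * z.re / (1 - ‖z‖ ^ 2), 2 * z.im / (1 - ‖z‖ ^ 2)]

/-- Map from the hyperboloid to the disc. -/
noncomputable def Zm (x : V3) : ℂ := ⟨x 1 / (1 + x 0), x 2 / (1 + x 0)⟩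

/-- Reflections of the disc. -/
noncomputable def R : Fin 4 → ℂ → ℂ
  | 0 => fun z => -conj z
  | 1 => fun z => (C0 * conj z - 1) / (conj z - C0)
  | 2 => fun z => conj z
  | 3 => fun z => (I * C0 * conj z - 1) / (conj z + I * C0)

theorem nsq (z : ℂ) : ‖z‖ ^ 2 = z.re ^ 2 + z.im ^ 2 := by
  rw [← Complex.normSq_eq_norm_sq, Complex.normSq_apply]; ring

theorem lt_one_of_mem {z : ℂ} (hz : z ∈ ball (0 : ℂ) 1) : z.re ^ 2 + z.im ^ 2 < 1 := by
  rw [← nsq]; rw [mem_ball_zero_iff] at hz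
  have := norm_nonneg z; nlinarith

theorem mem_of_lt_one {z : ℂ} (h : z.re ^ 2 + z.im ^ 2 < 1) : z ∈ ball (0 : ℂ) 1 := by
  rw [mem_ball_zero_iff]; rw [← nsq] at h
  have := norm_nonneg z; nlinarith

theorem Zm_Xm {z : ℂ} (hz : z ∈ ball (0 : ℂ) 1) : Zm (Xm z) = z := by
  have h := lt_one_of_mem hz
  have h1 : (1 : ℝ) - (z.re ^ 2 + z.im ^ 2) ≠ 0 := by linarith
  apply Complex.ext
  · simp only [Zm, Xm, nsq, Matrix.cons_val_zero, Matrix.cons_val_one]
    field_simp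
    ring
  · simp only [Zm, Xm, nsq, Matrix.cons_val_zero, Matrix.cons_val]
    field_simp
    ring

theorem Xm_inj {z w : ℂ} (hz : z ∈ ball (0 : ℂ) 1) (hw : w ∈ ball (0 : ℂ) 1)
    (h : Xm z = Xm w) : z = w := by
  rw [← Zm_Xm hz, ← Zm_Xm hw, h]

theorem Xm_hyp {z : ℂ} (hz : z ∈ ball (0 : ℂ) 1) : lf (Xm z) (Xm z) = -1 ∧ 0 < Xm z 0 := by
  have h := lt_one_of_mem hz
  have h1 : (0 : ℝ) < 1 - (z.re ^ 2 + z.im ^ 2) := by linarith
  have h1' := h1.ne'
  constructor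
  · simp only [lf, Xm, nsq, Matrix.cons_val_zero, Matrix.cons_val_one, Matrix.cons_val]
    field_simp
    ring
  · simp only [Xm, nsq, Matrix.cons_val_zero]
    positivity

theorem Xm_Zm {x : V3} (h : lf x x = -1) (h0 : 0 < x 0) :
    Zm x ∈ ball (0 : ℂ) 1 ∧ Xm (Zm x) = x := by
  have h1 : x 0 ^ 2 = 1 + x 1 ^ 2 + x 2 ^ 2 := by unfold lf at h; nlinarith
  have h2 : (0 : ℝ) < 1 + x 0 := by linarith
  have h2' := h2.ne'
  have e : (Zm x).re ^ 2 + (Zm x).im ^ 2 = (x 0 - 1) / (x 0 + 1) := by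
    simp only [Zm]
    field_simp
    nlinarith
  have e1 : 1 - (x 0 - 1) / (x 0 + 1) = 2 / (x 0 + 1) := by
    have : x 0 + 1 ≠ 0 := by linarith
    field_simp; ring
  have e2 : 1 + (x 0 - 1) / (x 0 + 1) = 2 * x 0 / (x 0 + 1) := by
    have : x 0 + 1 ≠ 0 := by linarith
    field_simp; ring
  constructor
  · apply mem_of_lt_one
    rw [e]
    have : (0 : ℝ) < 2 / (x 0 + 1) := by positivity
    linarith
  · have h3 : x 0 + 1 ≠ 0 := by linarith
    have z1 : (Zm x).re = x 1 / (1 + x 0) := rfl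
    have z2 : (Zm x).im = x 2 / (1 + x 0) := rfl
    ext i
    fin_cases i
    · simp only [Xm, nsq, e, e1, e2, Matrix.cons_val_zero, Fin.zero_eta]
      field_simp
    · simp only [Xm, nsq, e, e1, Matrix.cons_val_one, Matrix.cons_val_zero, Fin.mk_one]
      rw [z1]
      field_simp
      ring
    · simp only [Xm, nsq, e, e1, Matrix.cons_val, Fin.reduceFinMk]
      rw [z2]
      field_simp
      ring

theorem C0_rel : C0 ^ 2 - 1 = 1 / sg ^ 2 := by
  have h := sg_pos.ne'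
  unfold C0; rw [div_pow, kp_sq']; field_simp; ring

theorem R1_re (z : ℂ) : (R 1 z).re = (C0 * (z.re ^ 2 + z.im ^ 2) - (C0 ^ 2 + 1) * z.re + C0) /
    ((z.re - C0) ^ 2 + z.im ^ 2) := by
  simp only [R, Complex.div_re, Complex.normSq_apply, Complex.sub_re, Complex.sub_im,
    Complex.mul_re, Complex.mul_im, Complex.conj_re, Complex.conj_im, Complex.ofReal_re,
    Complex.ofReal_im, Complex.one_re, Complex.one_im]
  rw [← add_div]
  congr 1 <;> ring

theorem R1_im (z : ℂ) : (R 1 z).im = ((C0 ^ 2 - 1) * z.im) / ((z.re - C0) ^ 2 + z.im ^ 2) := by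
  simp only [R, Complex.div_im, Complex.normSq_apply, Complex.sub_re, Complex.sub_im,
    Complex.mul_re, Complex.mul_im, Complex.conj_re, Complex.conj_im, Complex.ofReal_re,
    Complex.ofReal_im, Complex.one_re, Complex.one_im]
  rw [← sub_div]
  congr 1 <;> ring

theorem R3_re (z : ℂ) : (R 3 z).re = ((C0 ^ 2 - 1) * z.re) / (z.re ^ 2 + (z.im - C0) ^ 2) := by
  simp only [R, Complex.div_re, Complex.normSq_apply, Complex.sub_re, Complex.sub_im,
    Complex.mul_re, Complex.mul_im, Complex.conj_re, Complex.conj_im, Complex.ofReal_re,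
    Complex.ofReal_im, Complex.one_re, Complex.one_im, Complex.add_re, Complex.add_im,
    Complex.I_re, Complex.I_im]
  rw [← add_div]
  congr 1 <;> ring

theorem R3_im (z : ℂ) : (R 3 z).im = (C0 * (z.re ^ 2 + z.im ^ 2) - (C0 ^ 2 + 1) * z.im + C0) /
    (z.re ^ 2 + (z.im - C0) ^ 2) := by
  simp only [R, Complex.div_im, Complex.normSq_apply, Complex.sub_re, Complex.sub_im,
    Complex.mul_re, Complex.mul_im, Complex.conj_re, Complex.conj_im, Complex.ofReal_re,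
    Complex.ofReal_im, Complex.one_re, Complex.one_im, Complex.add_re, Complex.add_im,
    Complex.I_re, Complex.I_im]
  rw [← sub_div]
  congr 1 <;> ring

/-- The key computation, with free variables. -/
theorem refl_aux {x y c : ℝ} (h : x ^ 2 + y ^ 2 < 1) (hc : 1 < c) :
    0 < (x - c) ^ 2 + y ^ 2 ∧
    1 - (((c * (x ^ 2 + y ^ 2) - (c ^ 2 + 1) * x + c) / ((x - c) ^ 2 + y ^ 2)) ^ 2 +
      (((c ^ 2 - 1) * y) / ((x - c) ^ 2 + y ^ 2)) ^ 2) =
      (c ^ 2 - 1) * (1 - (x ^ 2 + y ^ 2)) / ((x - c) ^ 2 + y ^ 2) ∧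
    1 + (((c * (x ^ 2 + y ^ 2) - (c ^ 2 + 1) * x + c) / ((x - c) ^ 2 + y ^ 2)) ^ 2 +
      (((c ^ 2 - 1) * y) / ((x - c) ^ 2 + y ^ 2)) ^ 2) =
      ((c ^ 2 + 1) * (1 + (x ^ 2 + y ^ 2)) - 4 * c * x) / ((x - c) ^ 2 + y ^ 2) := by
  have hx : x < c := by nlinarith [sq_nonneg y, sq_nonneg (x - 1)]
  have h0 : 0 < (x - c) ^ 2 + y ^ 2 := by nlinarith [sq_nonneg y]
  have h0' := h0.ne'
  refine ⟨h0, ?_, ?_⟩
  · field_simp
    ring
  · field_simp
    ring

theorem R_mem (s : Fin 4) {z : ℂ} (hz : z ∈ ball (0 : ℂ) 1) : R s z ∈ ball (0 : ℂ) 1 := by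
  have h := lt_one_of_mem hz
  have hc := C0_gt
  fin_cases s
  · apply mem_of_lt_one; simpa [R] using h
  · apply mem_of_lt_one
    show (R 1 z).re ^ 2 + (R 1 z).im ^ 2 < 1
    rw [R1_re, R1_im]
    obtain ⟨h0, h1, -⟩ := refl_aux h hc
    have : 0 < (C0 ^ 2 - 1) * (1 - (z.re ^ 2 + z.im ^ 2)) / ((z.re - C0) ^ 2 + z.im ^ 2) := by
      apply div_pos _ h0
      apply mul_pos <;> nlinarith
    linarith
  · apply mem_of_lt_one; simpa [R] using h
  · apply mem_of_lt_one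
    show (R 3 z).re ^ 2 + (R 3 z).im ^ 2 < 1
    rw [R3_re, R3_im]
    have h' : z.im ^ 2 + z.re ^ 2 < 1 := by linarith
    obtain ⟨h0, h1, -⟩ := refl_aux h' hc
    have : 0 < (C0 ^ 2 - 1) * (1 - (z.im ^ 2 + z.re ^ 2)) / ((z.im - C0) ^ 2 + z.re ^ 2) := by
      apply div_pos _ h0
      apply mul_pos <;> nlinarith
    have e : z.re ^ 2 + (z.im - C0) ^ 2 = (z.im - C0) ^ 2 + z.re ^ 2 := by ring
    have e' : z.re ^ 2 + z.im ^ 2 = z.im ^ 2 + z.re ^ 2 := by ring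
    rw [e, e']
    linarith

theorem Xm_R (s : Fin 4) {z : ℂ} (hz : z ∈ ball (0 : ℂ) 1) : Xm (R s z) = rf s (Xm z) := by
  have h := lt_one_of_mem hz
  have hc := C0_gt
  have hs := sg_pos.ne'
  have hrel := C0_rel
  have hkp : kp = C0 * sg := by unfold C0; field_simp
  have h1 : (1 : ℝ) - (z.re ^ 2 + z.im ^ 2) ≠ 0 := by linarith
  have hC : (C0 ^ 2 - 1) * sg ^ 2 = 1 := by rw [hrel]; field_simp
  have hC1 : C0 ^ 2 - 1 ≠ 0 := by nlinarith
  fin_cases s
  · ext i; fin_cases i <;> simp [Xm, R, rf, ev, lf] <;> ring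
  · obtain ⟨h0, h2, h3⟩ := refl_aux h hc
    show Xm (R 1 z) = rf 1 (Xm z)
    have hsg2 : sg ^ 2 = 1 / (C0 ^ 2 - 1) := by field_simp; linarith
    ext i
    fin_cases i
    · simp only [Xm, nsq, R1_re, R1_im, h2, h3, rf, ev, lf, Pi.sub_apply, Pi.smul_apply,
        smul_eq_mul, Matrix.cons_val_zero, Matrix.cons_val_one, Matrix.cons_val, Fin.zero_eta, hkp]
      field_simp
      linear_combination (-(2 * (1 + (z.re ^ 2 + z.im ^ 2))) + 4 * C0 * z.re) * hC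
    · simp only [Xm, nsq, R1_re, R1_im, h2, h3, rf, ev, lf, Pi.sub_apply, Pi.smul_apply,
        smul_eq_mul, Matrix.cons_val_zero, Matrix.cons_val_one, Matrix.cons_val, Fin.mk_one, hkp]
      field_simp
      linear_combination (-(C0 * (1 + (z.re ^ 2 + z.im ^ 2))) + 2 * C0 ^ 2 * z.re) * hC
    · simp only [Xm, nsq, R1_re, R1_im, h2, h3, rf, ev, lf, Pi.sub_apply, Pi.smul_apply,
        smul_eq_mul, Matrix.cons_val_zero, Matrix.cons_val_one, Matrix.cons_val, Fin.reduceFinMk,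
        hkp]
      field_simp
      ring
  · ext i; fin_cases i <;> simp [Xm, R, rf, ev, lf] <;> ring
  · have h' : z.im ^ 2 + z.re ^ 2 < 1 := by linarith
    obtain ⟨h0, h2, h3⟩ := refl_aux h' hc
    have e : z.re ^ 2 + (z.im - C0) ^ 2 = (z.im - C0) ^ 2 + z.re ^ 2 := by ring
    have e' : z.re ^ 2 + z.im ^ 2 = z.im ^ 2 + z.re ^ 2 := by ring
    have e2 : ∀ a b : ℝ, a ^ 2 + b ^ 2 = b ^ 2 + a ^ 2 := fun a b => by ring
    show Xm (R 3 z) = rf 3 (Xm z)
    have hsg2 : sg ^ 2 = 1 / (C0 ^ 2 - 1) := by field_simp; linarith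
    have h1' : (1 : ℝ) - (z.im ^ 2 + z.re ^ 2) ≠ 0 := by linarith
    have n1 : (R 3 z).re ^ 2 + (R 3 z).im ^ 2 =
        ((C0 * (z.im ^ 2 + z.re ^ 2) - (C0 ^ 2 + 1) * z.im + C0) /
          ((z.im - C0) ^ 2 + z.re ^ 2)) ^ 2 +
        (((C0 ^ 2 - 1) * z.re) / ((z.im - C0) ^ 2 + z.re ^ 2)) ^ 2 := by
      rw [R3_re, R3_im, e, e']; ring
    ext i
    fin_cases i
    · simp only [Xm, nsq, n1, h2, h3, e', rf, ev, lf, Pi.sub_apply, Pi.smul_apply,
        smul_eq_mul, Matrix.cons_val_zero, Matrix.cons_val_one, Matrix.cons_val, Fin.zero_eta, hkp]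
      field_simp
      linear_combination (-(2 * (1 + (z.im ^ 2 + z.re ^ 2))) + 4 * C0 * z.im) * hC
    · simp only [Xm, nsq, n1, h2, h3, e', rf, ev, lf, Pi.sub_apply, Pi.smul_apply,
        smul_eq_mul, Matrix.cons_val_zero, Matrix.cons_val_one, Matrix.cons_val, Fin.mk_one, hkp]
      rw [R3_re, e]
      field_simp
      ring
    · simp only [Xm, nsq, n1, h2, h3, e', rf, ev, lf, Pi.sub_apply, Pi.smul_apply,
        smul_eq_mul, Matrix.cons_val_zero, Matrix.cons_val_one, Matrix.cons_val, Fin.reduceFinMk,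
        hkp]
      rw [R3_im, e, e']
      field_simp
      linear_combination (-(C0 * (1 + (z.im ^ 2 + z.re ^ 2))) + 2 * C0 ^ 2 * z.im) * hC

theorem R_R (s : Fin 4) {z : ℂ} (hz : z ∈ ball (0 : ℂ) 1) : R s (R s z) = z := by
  apply Xm_inj (R_mem s (R_mem s hz)) hz
  rw [Xm_R s (R_mem s hz), Xm_R s hz, rf_rf]

end Pool.Agent.Helper69.QG
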