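import Mathlib

/-!
# Project QD, part C, geometric half: the tiling of the disc by quadrilaterals.  Basic objects.

`sg² = 1/√2`, `kp² = 1 + 1/√2` (`sg = sinh m`, `kp = cosh m`), `C0 = kp/sg`, `C0² = 1 + √2`,
`tau = sg/kp`, `tau² = √2 - 1`.  The Coxeter group `W` has generators `0,1,2,3` (`a,b,c,d`), it acts
on `ℝ³` with the Lorentz form `lf` by the reflections `rf s` in `ev s` and on the unit disc by the
maps `R s`; `X` is the map from the disc to the hyperboloid.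
-/

open Complex Set Metric
open scoped ComplexConjugate

namespace Pool.Agent.Helper69.QG

/-- `sinh m` -/
noncomputable def sg : ℝ := Real.sqrt (1 / Real.sqrt 2)

/-- `cosh m` -/
noncomputable def kp : ℝ := Real.sqrt (1 + 1 / Real.sqrt 2)

theorem sqrt2_pos : (0 : ℝ) < Real.sqrt 2 := by positivity

theorem sg_pos : 0 < sg := by unfold sg; positivity

theorem kp_pos : 0 < kp := by unfold kp; positivity

theorem sg_sq : sg ^ 2 = 1 / Real.sqrt 2 := by unfold sg; rw [Real.sq_sqrt (by positivity)]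

theorem kp_sq : kp ^ 2 = 1 + 1 / Real.sqrt 2 := by unfold kp; rw [Real.sq_sqrt (by positivity)]

theorem kp_sq' : kp ^ 2 = 1 + sg ^ 2 := by rw [kp_sq, sg_sq]

theorem sg_four : sg ^ 4 = 1 / 2 := by
  have h : sg ^ 4 = (sg ^ 2) ^ 2 := by ring
  rw [h, sg_sq, div_pow, Real.sq_sqrt (by norm_num)]; norm_num

theorem sg_lt_kp : sg < kp := by
  have h1 := sg_pos; have h2 := kp_pos; have h3 := kp_sq'
  nlinarith

/-- centre of the circle `b` -/
noncomputable def C0 : ℝ := kp / sg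

/-- half side of the square in the Klein model -/
noncomputable def tau : ℝ := sg / kp

theorem C0_pos : 0 < C0 := div_pos kp_pos sg_pos

theorem tau_pos : 0 < tau := div_pos sg_pos kp_pos

theorem C0_gt : 1 < C0 := by
  unfold C0; rw [lt_div_iff₀ sg_pos]; linarith [sg_lt_kp]

/-! ## the Lorentz form -/

/-- ambient space -/
abbrev V3 : Type := Fin 3 → ℝ

/-- Lorentz form -/
def lf (x y : V3) : ℝ := -(x 0 * y 0) + x 1 * y 1 + x 2 * y 2

/-- roots -/
noncomputable def ev : Fin 4 → V3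
  | 0 => ![0, 1, 0]
  | 1 => ![-sg, -kp, 0]
  | 2 => ![0, 0, 1]
  | 3 => ![-sg, 0, -kp]

/-- reflections -/
noncomputable def rf (s : Fin 4) (x : V3) : V3 := x - (2 * lf x (ev s)) • ev s

theorem lf_comm (x y : V3) : lf x y = lf y x := by unfold lf; ring

theorem lf_sub_left (x y z : V3) : lf (x - y) z = lf x z - lf y z := by
  simp only [lf, Pi.sub_apply]; ring

theorem lf_add_left (x y z : V3) : lf (x + y) z = lf x z + lf y z := by
  simp only [lf, Pi.add_apply]; ring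

theorem lf_smul_left (c : ℝ) (x z : V3) : lf (c • x) z = c * lf x z := by
  simp only [lf, Pi.smul_apply, smul_eq_mul]; ring

theorem lf_ev_self (s : Fin 4) : lf (ev s) (ev s) = 1 := by
  have h := kp_sq'
  fin_cases s <;> simp [lf, ev] <;> nlinarith

theorem lf_rf (s : Fin 4) (x y : V3) : lf (rf s x) y = lf x y - 2 * lf x (ev s) * lf (ev s) y := by
  unfold rf; rw [lf_sub_left, lf_smul_left]

theorem rf_rf (s : Fin 4) (x : V3) : rf s (rf s x) = x := by
  have h : lf (rf s x) (ev s) = - lf x (ev s) := by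
    rw [lf_rf, lf_ev_self]; ring
  have : rf s (rf s x) = rf s x - (2 * lf (rf s x) (ev s)) • ev s := rfl
  rw [this, h]
  unfold rf
  ext i; simp only [Pi.sub_apply, Pi.smul_apply, smul_eq_mul]; ring

/-- reflections are symmetric for the form -/
theorem lf_rf_left (s : Fin 4) (x y : V3) : lf (rf s x) y = lf x (rf s y) := by
  rw [lf_rf, lf_comm x (rf s y), lf_rf, lf_comm y x, lf_comm y (ev s), lf_comm x (ev s)]; ring

/-- reflections preserve the form -/
theorem lf_rf_rf (s : Fin 4) (x y : V3) : lf (rf s x) (rf s y) = lf x y := by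
  rw [lf_rf_left, rf_rf]

theorem rf_comm {s t : Fin 4} (h : lf (ev s) (ev t) = 0) (x : V3) :
    rf s (rf t x) = rf t (rf s x) := by
  have h1 : lf (rf t x) (ev s) = lf x (ev s) := by
    rw [lf_rf, lf_comm (ev t), h]; ring
  have h2 : lf (rf s x) (ev t) = lf x (ev t) := by rw [lf_rf, h]; ring
  have e1 : rf s (rf t x) = rf t x - (2 * lf (rf t x) (ev s)) • ev s := rfl
  have e2 : rf t (rf s x) = rf s x - (2 * lf (rf s x) (ev t)) • ev t := rfl
  rw [e1, e2, h1, h2]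
  unfold rf
  ext i; simp only [Pi.sub_apply, Pi.smul_apply, smul_eq_mul]; ring

theorem ev02 : lf (ev 0) (ev 2) = 0 := by simp [lf, ev]
theorem ev03 : lf (ev 0) (ev 3) = 0 := by simp [lf, ev]
theorem ev12 : lf (ev 1) (ev 2) = 0 := by simp [lf, ev]
theorem ev13 : lf (ev 1) (ev 3) = -sg ^ 2 := by simp [lf, ev]; ring
theorem ev01 : lf (ev 0) (ev 1) = -kp := by simp [lf, ev]
theorem ev23 : lf (ev 2) (ev 3) = -kp := by simp [lf, ev]

/-- product of the reflections `b` and `d`: `(rf 1 ∘ rf 3)` has order four -/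
theorem rf13_four (x : V3) :
    rf 1 (rf 3 (rf 1 (rf 3 (rf 1 (rf 3 (rf 1 (rf 3 x))))))) = x := by
  -- squared: x ↦ x - 2 p e1 - 2 q e3 type formulas
  have key : ∀ y : V3, rf 1 (rf 3 (rf 1 (rf 3 y))) = rf 3 (rf 1 (rf 3 (rf 1 y))) := by
    intro y
    have h4 := sg_four
    have a1 : ∀ z : V3, lf (rf 3 z) (ev 1) = lf z (ev 1) + 2 * sg ^ 2 * lf z (ev 3) := by
      intro z; rw [lf_rf, lf_comm (ev 3), ev13]; ring
    have a3 : ∀ z : V3, lf (rf 1 z) (ev 3) = lf z (ev 3) + 2 * sg ^ 2 * lf z (ev 1) := by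
      intro z; rw [lf_rf, ev13]; ring
    have b1 : ∀ z : V3, lf (rf 1 z) (ev 1) = -lf z (ev 1) := by
      intro z; rw [lf_rf, lf_ev_self]; ring
    have b3 : ∀ z : V3, lf (rf 3 z) (ev 3) = -lf z (ev 3) := by
      intro z; rw [lf_rf, lf_ev_self]; ring
    have u1 : ∀ z : V3, rf 1 z = z - (2 * lf z (ev 1)) • ev 1 := fun z => rfl
    have u3 : ∀ z : V3, rf 3 z = z - (2 * lf z (ev 3)) • ev 3 := fun z => rfl
    set p := lf y (ev 1) with hp
    set q := lf y (ev 3) with hq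
    have e1 : rf 3 y = y - (2 * q) • ev 3 := rfl
    have e2 : rf 1 (rf 3 y) = rf 3 y - (2 * (p + 2 * sg ^ 2 * q)) • ev 1 := by
      rw [u1 (rf 3 y), a1]
    have e3 : rf 3 (rf 1 (rf 3 y)) = rf 1 (rf 3 y) -
        (2 * (-q + 2 * sg ^ 2 * (p + 2 * sg ^ 2 * q))) • ev 3 := by
      rw [u3 (rf 1 (rf 3 y)), a3, b3, a1]
    have e4 : rf 1 (rf 3 (rf 1 (rf 3 y))) = rf 3 (rf 1 (rf 3 y)) -
        (2 * (-(p + 2 * sg ^ 2 * q) + 2 * sg ^ 2 * (-q + 2 * sg ^ 2 * (p + 2 * sg ^ 2 * q)))) •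
          ev 1 := by
      rw [u1 (rf 3 (rf 1 (rf 3 y))), a1, b1, a3, b3, a1]
    have g1 : rf 1 y = y - (2 * p) • ev 1 := rfl
    have g2 : rf 3 (rf 1 y) = rf 1 y - (2 * (q + 2 * sg ^ 2 * p)) • ev 3 := by
      rw [u3 (rf 1 y), a3]
    have g3 : rf 1 (rf 3 (rf 1 y)) = rf 3 (rf 1 y) -
        (2 * (-p + 2 * sg ^ 2 * (q + 2 * sg ^ 2 * p))) • ev 1 := by
      rw [u1 (rf 3 (rf 1 y)), a1, b1, a3]
    have g4 : rf 3 (rf 1 (rf 3 (rf 1 y))) = rf 1 (rf 3 (rf 1 y)) -
        (2 * (-(q + 2 * sg ^ 2 * p) + 2 * sg ^ 2 * (-p + 2 * sg ^ 2 * (q + 2 * sg ^ 2 * p)))) •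
          ev 3 := by
      rw [u3 (rf 1 (rf 3 (rf 1 y))), a3, b3, a1, b1, a3]
    rw [e4, e3, e2, e1, g4, g3, g2, g1]
    ext i
    simp only [Pi.sub_apply, Pi.smul_apply, smul_eq_mul]
    linear_combination (ev 1 i * (-16 * sg ^ 2 * q) + ev 3 i * (16 * sg ^ 2 * p)) * h4
  rw [key (rf 1 (rf 3 (rf 1 (rf 3 x))))]
  rw [rf_rf 1, rf_rf 3, rf_rf 1, rf_rf 3]

end Pool.Agent.Helper69.QG
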