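import Pool.Agent.Helper69.QG.Act

/-! # Project QD, part C, geometric half: the Coxeter group and its actions -/

open Complex Set Metric
open scoped ComplexConjugate

namespace Pool.Agent.Helper69.QG

/-- Coxeter matrix: `(ac)² = (ad)² = (bc)² = 1`, `(bd)⁴ = 1`. -/
def cm : CoxeterMatrix (Fin 4) where
  M := !![1, 0, 2, 2; 0, 1, 2, 4; 2, 2, 1, 0; 2, 4, 0, 1]
  isSymm := by decide
  diagonal := by decide
  off_diagonal := by decide

/-- The group generated by `a, b, c, d`. -/
abbrev W : Type := cm.Group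

/-- The Coxeter system. -/
def cs : CoxeterSystem cm W := cm.toCoxeterSystem

/-- generators -/
def gen (s : Fin 4) : W := cs.simple s

/-- The open unit disc. -/
abbrev DD : Type := ↥(ball (0 : ℂ) 1)

/-- reflections of the disc as permutations -/
noncomputable def Rp (s : Fin 4) : Equiv.Perm DD where
  toFun z := ⟨R s z, R_mem s z.2⟩
  invFun z := ⟨R s z, R_mem s z.2⟩
  left_inv z := Subtype.ext (R_R s z.2)
  right_inv z := Subtype.ext (R_R s z.2)

theorem Rp_apply (s : Fin 4) (z : DD) : ((Rp s z : DD) : ℂ) = R s z := rfl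

theorem Xm_Rp (s : Fin 4) (z : DD) : Xm (Rp s z : DD) = rf s (Xm z) := Xm_R s z.2

theorem DD_ext {z w : DD} (h : Xm z = Xm w) : z = w := Subtype.ext (Xm_inj z.2 w.2 h)

theorem Rp_comm {s t : Fin 4} (h : lf (ev s) (ev t) = 0) : (Rp s * Rp t) ^ 2 = 1 := by
  ext1 z
  apply DD_ext
  simp only [pow_two, Equiv.Perm.mul_apply, Equiv.Perm.one_apply, Xm_Rp]
  rw [rf_comm h (Xm z), rf_rf, rf_rf]

theorem lift_ok : cm.IsLiftable Rp := by
  have self : ∀ s, Rp s * Rp s = 1 := by
    intro s
    ext1 z
    apply DD_ext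
    simp only [Equiv.Perm.mul_apply, Equiv.Perm.one_apply, Xm_Rp, rf_rf]
  have e20 : lf (ev 2) (ev 0) = 0 := by rw [lf_comm]; exact ev02
  have e30 : lf (ev 3) (ev 0) = 0 := by rw [lf_comm]; exact ev03
  have e21 : lf (ev 2) (ev 1) = 0 := by rw [lf_comm]; exact ev12
  have f13 : (Rp 1 * Rp 3) ^ 4 = 1 := by
    ext1 z
    apply DD_ext
    simp only [pow_succ, pow_zero, one_mul, Equiv.Perm.mul_apply, Equiv.Perm.one_apply, Xm_Rp]
    exact rf13_four (Xm z)
  have f31 : (Rp 3 * Rp 1) ^ 4 = 1 := by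
    have h : Rp 3 * Rp 1 = (Rp 1 * Rp 3)⁻¹ := by
      rw [mul_inv_rev, eq_comm, inv_eq_of_mul_eq_one_right (self 3),
        inv_eq_of_mul_eq_one_right (self 1)]
    rw [h, inv_pow, f13, inv_one]
  intro i j
  fin_cases i <;> fin_cases j
  all_goals first
    | exact (pow_one _).trans (self _)
    | exact pow_zero _
    | exact Rp_comm ev02
    | exact Rp_comm ev03
    | exact Rp_comm ev12
    | exact Rp_comm e20
    | exact Rp_comm e30
    | exact Rp_comm e21
    | exact f13
    | exact f31

/-- The action on the disc. -/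
noncomputable def act : W →* Equiv.Perm DD := cs.lift ⟨Rp, lift_ok⟩

theorem act_gen (s : Fin 4) : act (gen s) = Rp s := cs.lift_apply_simple lift_ok s

/-! ## the flat action -/

/-- flat reflections -/
noncomputable def fr : Fin 4 → ℂ → ℂ
  | 0 => fun z => -conj z
  | 1 => fun z => 2 - conj z
  | 2 => fun z => conj z
  | 3 => fun z => conj z + 2 * I

theorem conj_two : (starRingEnd ℂ) 2 = 2 := map_ofNat _ 2

theorem fr_fr (s : Fin 4) (z : ℂ) : fr s (fr s z) = z := by
  fin_cases s <;> simp [fr, conj_two]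

/-- flat reflections as permutations -/
noncomputable def Fp (s : Fin 4) : Equiv.Perm ℂ where
  toFun := fr s
  invFun := fr s
  left_inv := fr_fr s
  right_inv := fr_fr s

theorem flift_ok : cm.IsLiftable Fp := by
  intro i j
  fin_cases i <;> fin_cases j
  all_goals
    ext1 z
    simp [Fp, fr, cm, pow_succ, Equiv.Perm.mul_apply, conj_two]
  all_goals ring

/-- The action on the plane. -/
noncomputable def flat : W →* Equiv.Perm ℂ := cs.lift ⟨Fp, flift_ok⟩

theorem flat_gen (s : Fin 4) (z : ℂ) : flat (gen s) z = fr s z := by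
  have : flat (gen s) = Fp s := cs.lift_apply_simple flift_ok s
  rw [this]; rfl

/-- The closed tile. -/
def Pc : Set DD := {z | ∀ s, 0 ≤ lf (Xm z) (ev s)}

/-- The open tile. -/
def Po : Set DD := {z | ∀ s, 0 < lf (Xm z) (ev s)}

/-- Even elements. -/
def Ev : Subgroup W := (cs.lengthParity).ker

/-- Flat coordinate of points of the tile. -/
noncomputable def psi (z : ℂ) : ℂ := ((2 / (tau * (1 + ‖z‖ ^ 2)) : ℝ) : ℂ) * z

/-- alternating product of `m` letters starting with `t` -/
def altp {B W : Type} [Group W] {M : CoxeterMatrix B} (cs : CoxeterSystem M W) (s t : B) :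
    ℕ → W
  | 0 => 1
  | m + 1 => cs.simple t * altp cs t s m

end Pool.Agent.Helper69.QG
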