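import Pool.Agent.Helper69.QG.Grp

/-!
# Project QD, part C, geometric half: the tiling.  Statements with proofs in the docstrings.

Basic facts proved in Bas.lean, Act.lean, Grp.lean: `lf` is the Lorentz form, `ev s` the roots,
`rf s` the linear reflections, `R s` the reflections of the disc, `Xm (R s z) = rf s (Xm z)`
(`Xm_R`), `Xm` is a bijection from the disc onto the hyperboloid (`Zm`, `Zm_Xm`, `Xm_Zm`),
`act : W →* Equiv.Perm DD`, `act (gen s) = Rp s` (`act_gen`), `Xm_Rp`.  `Pc` (`Po`) is the closed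
(open) tile.  By `cs.simple_induction` every `w` has a linear map `L` with
`Xm (act w z) = L (Xm z)` for all `z` and `lf (L x) (L y) = lf x y`.
-/

open Complex Set Metric
open scoped ComplexConjugate

namespace Pool.Agent.Helper69.QG

/-- **TIT** (lemma of Tits, Bourbaki Lie V.4.4).  `C = {x : x ∈ A t for all t}`.
*Dihedral reduction*: let `s ≠ t`, `M = M s t`.  Every product of a list of letters from `{s,t}` of
length `k` equals `altp cs s t m` or `altp cs t s m` for some `m ≤ k` with `M = 0 ∨ m ≤ M`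
(`altp cs s t m` starts with `t`): induction on `k`; a new letter on the left either equals the first
letter (cancel, `m - 1`) or differs (`m + 1`), and if then `m + 1 > M ≠ 0`, i.e. `m = M`, use
`altp cs s t M = altp cs t s M` (braid relation: `altp s t (2k) = (ts)^k`,
`altp s t (2k+1) = (ts)^k t` and `(ts)^M = 1`) and cancel.
*Geometric consequence* (G): if `v` is a product of `k` letters from `{s,t}` then either
`ρ v (A s ∩ A t) ⊆ A s`, or `k ≥ 1`, `s v` is a product of at most `k - 1` letters and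
`ρ (s v)(A s ∩ A t) ⊆ A s`.  (Write `v = altp ..` with `m ≤ k`.  If `m = M ≠ 0` or the first letter
is `s`: we may take the first letter to be `s`, `v = s v'`, `v' = altp cs s t (m-1)`, `m - 1 < M` or
`M = 0`: second hypothesis.  If the first letter is `t` and `m < M` or `M = 0`: second hypothesis.
`m = 0`: `v = 1`.)
*Induction on `n`* of the two statements, for all `w` with `length w ≤ n`:
(P) for all `s`: `ρ w C ⊆ A s`, or `length (s w) < length w` and `ρ (s w) C ⊆ A s`;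
(Q) for all `s ≠ t` there is a product `u` of `k` letters from `{s,t}` with
`ρ (u⁻¹ w) C ⊆ A s ∩ A t` and `length w = k + length (u⁻¹ w)`.
`n = 0`: `w = 1`, `u = 1`.  (P) for `n+1`: `w = t w'`, `length w' = n` (`exists_leftDescent_of_ne_one`).
If `t = s`, apply (P) to `w'`: the case `ρ w' C ⊆ A s` is the second alternative for `w`
(`s w = w'`); the other case gives `length w = length (s w') < length w'`, absurd.  If `t ≠ s` apply
(Q) to `w'`: `u`, `k`; (G) for `v = t u` (`k + 1` letters): either `ρ w C = ρ v (ρ(u⁻¹w')C) ⊆ A s`, or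
`s v` is a product of at most `k` letters and `ρ (s w) C = ρ (s v)(ρ (u⁻¹ w') C) ⊆ A s`,
`length (s w) ≤ k + length (u⁻¹ w') = n < n + 1`.  (Q) for `n+1`: if `ρ w C ⊆ A s ∩ A t` take
`u = 1`.  Otherwise, say `ρ w C` is not contained in `A s` (the other case is symmetric): by (P)
`length (s w) ≤ n`, in fact `length w = length (s w) + 1`; apply (Q) to `s w`: `v`, `k`; take
`u = s v`, `k + 1`: `length w = 1 + k + length (u⁻¹ w)`.
The statement follows from (P): `length w < length (s w)` excludes the second alternative.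
(The first hypothesis is not needed.) -/
def St_TIT : Prop :=
  ∀ (B G Ω : Type) [Group G] (M : CoxeterMatrix B) (cs : CoxeterSystem M G)
    (ρ : G →* Equiv.Perm Ω) (A : B → Set Ω),
    (∀ s t, s ≠ t → ∀ m : ℕ, (M s t = 0 ∨ m < M s t) → ∀ x, x ∈ A s → x ∈ A t →
      ρ (altp cs s t m) x ∈ A s) →
    ∀ (w : G) (s : B), cs.length w < cs.length (cs.simple s * w) →
      ∀ x, (∀ t, x ∈ A t) → ρ w x ∈ A s

/-- **DIH** (dihedral inequalities).  `X(act (altp cs s t (m+1)) z) = rf t (X (act (altp cs t s m) z))`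
and `lf (rf t Y) v = lf Y (rf t v)`; with `g = lf (ev s) (ev t)`:
`rf t (x e_s + y e_t) = x e_s + (-y - 2 g x) e_t`.
*`cm s t = 2`* (`g = 0`): `m ∈ {0,1}`, `lf (rf t X) e_s = lf X e_s`.
*`cm s t = 4`* (`{s,t} = {1,3}`, `g = -sg²`, `c = 2 sg²`, `c² = 2`): for `m = 0,1,2,3` the value is
`lf X v` with `v = e_s, e_s + c e_t, e_s + c e_t, e_s` (`rf s (e_s + c e_t) = e_s + c e_t`,
`rf t (e_s + c e_t) = e_s`).
*`cm s t = 0`* (`g = -kp`, `kp > 1`): claim by induction on `m`, for all `s,t` of this kind and all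
`x ≥ y ≥ 0`, `x > 0`: `lf (X (act (altp cs s t m) z)) (x e_s + y e_t) > 0`; step: the vector becomes
`x e_s + (2 kp x - y) e_t` with `2 kp x - y ≥ x`, evaluated at `altp cs t s m`. -/
def St_DIH : Prop :=
  ∀ s t : Fin 4, s ≠ t → ∀ m : ℕ, (cm s t = 0 ∨ m < cm s t) → ∀ z : DD,
    0 < lf (Xm z) (ev s) → 0 < lf (Xm z) (ev t) →
    0 < lf (Xm (act (altp cs s t m) z : DD)) (ev s)

/-- **PBD** (the tile).  First item: `lf (Xm z) (ev 0) = 2 re z/(1-‖z‖²)`,
`lf (Xm z) (ev 1) = (sg (1+‖z‖²) - 2 kp re z)/(1-‖z‖²)`, etc., `C0 = kp/sg`.  Second: on `Pc`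
`(2 C0 re)² + (2 C0 im)² ≤ 2 (1+n)²`, `n = ‖z‖²`, so `2 C0² n ≤ (1+n)²`, with `C0² = 1 + √2`:
`n² - 2√2 n + 1 ≥ 0`, i.e. `n ≤ √2 - 1` or `n ≥ √2 + 1`; `n < 1`.  Third: the point `ε(1 + i)`,
`ε = 1/10`.  Compactness: closed in the disc (continuity of `Xm`) and contained in a closed ball of
radius `< 1`. -/
def St_PBD : Prop :=
  (∀ z : DD, z ∈ Pc ↔ (0 ≤ (z : ℂ).re ∧ 0 ≤ (z : ℂ).im ∧ 2 * C0 * (z : ℂ).re ≤ 1 + ‖(z : ℂ)‖ ^ 2 ∧
    2 * C0 * (z : ℂ).im ≤ 1 + ‖(z : ℂ)‖ ^ 2)) ∧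
  (∀ z ∈ Pc, ‖(z : ℂ)‖ ^ 2 ≤ Real.sqrt 2 - 1) ∧ Po.Nonempty ∧ IsCompact Pc ∧ C0 ^ 2 = 1 + Real.sqrt 2 ∧
  tau ^ 2 = Real.sqrt 2 - 1 ∧ tau * C0 = 1

/-- **CLS** (closed version).  The hypotheses of St_TIT hold for `Ω = DD`, `ρ = act`,
`A s = {z : 0 < lf (Xm z) (ev s)}` by St_DIH; this is the second item.  First item: let `z ∈ Pc`,
`y ∈ Po`, `ε > 0`, `x = Xm z + ε Xm y`: `lf x x < 0` (because `lf (Xm z) (Xm y) < 0`: for two vectors
of the hyperboloid `x₁y₁ + x₂y₂ ≤ √(x₁²+x₂²) √(y₁²+y₂²) < x₀ y₀`), `x 0 > 0`; `x̂ = x/√(-lf x x)` is in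
the hyperboloid, `x̂ = Xm z'`, `z' ∈ Po` (Xm_Zm).  The second item for `z'` and linearity of the
action give `lf (L x) (ev s) > 0`, i.e. `lf (L (Xm z)) (ev s) + ε lf (L (Xm y)) (ev s) > 0` for all
`ε > 0`; let `ε → 0`.  Third item: first item for `gen s * w` (then
`gen s * (gen s * w) = w` is longer) and `lf (rf s X) (ev s) = - lf X (ev s)`. -/
def St_CLS : Prop :=
  ∀ (w : W) (s : Fin 4),
    (cs.length w < cs.length (gen s * w) → ∀ z ∈ Pc, 0 ≤ lf (Xm (act w z : DD)) (ev s)) ∧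
    (cs.length w < cs.length (gen s * w) → ∀ z ∈ Po, 0 < lf (Xm (act w z : DD)) (ev s)) ∧
    (cs.length (gen s * w) < cs.length w → ∀ z ∈ Pc, lf (Xm (act w z : DD)) (ev s) ≤ 0)

/-- **STZ** (stabilisers).  Induction on `cs.length w`.  `w = 1`: clear.  Otherwise there is `s` with
`length (gen s * w) < length w` (`exists_leftDescent_of_ne_one`).  By St_CLS
`lf (Xm (act w z)) (ev s) ≤ 0`, and `≥ 0` as `act w z ∈ Pc`, so `rf s` fixes `Xm (act w z)` and
`act (gen s)` fixes `act w z`.  So `act (gen s * w) z = act w z ∈ Pc`; induction: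
`act (gen s * w) z = z` and `gen s * w ∈ closure`.  Hence `act w z = z`, `act (gen s) z = z`,
`w = gen s * (gen s * w)`.  Second item: a point of `Po` is fixed by no `act (gen s)`
(`rf s X = X` iff `lf X (ev s) = 0`), so the closure is trivial. -/
def St_STZ : Prop :=
  (∀ (w : W) (z : DD), z ∈ Pc → act w z ∈ Pc →
    act w z = z ∧ w ∈ Subgroup.closure {v : W | ∃ s, v = gen s ∧ act (gen s) z = z}) ∧
  ∀ (w : W) (z : DD), z ∈ Po → act w z ∈ Pc → w = 1

/-- **LFZ** (discreteness).  `y ∈ Po` (St_PBD).  There is `c > 1` such that every `x` of the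
hyperboloid with `-lf (Xm y) x < c` satisfies `0 < lf x (ev s)` for all `s` (otherwise there are
`x_n` with `-lf (Xm y) x_n → 1` outside this open set; they stay in a compact subset of the
hyperboloid, because `x 0 ≤ 2 (Xm y 0) (-lf (Xm y) x)`; a limit point `x` has
`-lf (Xm y) x = 1`, so `x = Xm y` (equality in the reversed Cauchy-Schwarz inequality), a
contradiction).  For `w ≠ w'`: `-lf (Xm (act w y)) (Xm (act w' y)) = -lf (Xm y) (Xm (act (w⁻¹w') y)) ≥ c`
by St_STZ (second item).  If the set were infinite, the points `Xm (act w y)` (pairwise different)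
of a compact set would have an accumulation point `x` in the hyperboloid and
`-lf (Xm (act w y)) (Xm (act w' y)) → -lf x x = 1` along it: contradiction.
(Bound used: `-lf x x' ≥ x' 0 (x 0 - √(x₁²+x₂²)) = x' 0/(x 0 + √(x₁²+x₂²)) ≥ x' 0/(2 x 0)`.) -/
def St_LFZ : Prop :=
  ∀ y ∈ Po, ∀ K : ℝ, {w : W | Xm (act w y : DD) 0 ≤ K}.Finite

/-- **CVR** (the tiles cover).  `y ∈ Po`.  `g(w) = -lf (Xm (act w z)) (Xm y)
= -lf (Xm z) (Xm (act w⁻¹ y))`.  For every `K` only finitely many `w` have `g(w) ≤ K`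
(`Xm (act w⁻¹ y) 0 ≤ 2 (Xm z 0) K`, St_LFZ), so there is a `w` with `g(w)` minimal
(`Set.Finite.exists_minimal` style).  For every `s`:
`g(gen s * w) = g(w) + 2 lf (Xm (act w z)) (ev s) lf (ev s) (Xm y) ≥ g(w)`, and
`lf (ev s) (Xm y) > 0`, so `lf (Xm (act w z)) (ev s) ≥ 0`. -/
def St_CVR : Prop := ∀ z : DD, ∃ w : W, act w z ∈ Pc

/-- **LFN** (local finiteness).  `y ∈ Po`, `z ∈ Pc`, `‖act w z‖ ≤ r`: `Xm (act w z) 0 ≤ c₂(r)`,
`-lf (Xm (act w z)) (Xm (act w y)) = -lf (Xm z) (Xm y) ≤ c₁` (compactness of `Pc` or St_PBD: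
`Xm z 0` is bounded on `Pc`), so `Xm (act w y) 0 ≤ 2 c₁ c₂`; St_LFZ. -/
def St_LFN : Prop :=
  ∀ r : ℝ, r < 1 → {w : W | ∃ z ∈ Pc, ‖((act w z : DD) : ℂ)‖ ≤ r}.Finite

/-- **CTA**: `act w` is continuous (`R s` is continuous on the disc: the denominators do not vanish
there as `C0 > 1`), so it is a homeomorphism; even elements are Moebius maps: for `w ∈ Ev` there are
`α, β` with `‖α‖² - ‖β‖² = 1` and `act w z = (α z + β)/(conj β z + conj α)`, for odd ones the same
with `conj z`.  (Induction on the word; `R 0`: `α = i, β = 0`; `R 1`: with `r = √(C0² - 1)`,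
`α = -i C0/r`, `β = i/r`; `R 2`: `α = 1`; `R 3`: `α = C0/r`, `β = i/r`, check:
`(i C0 w - 1)/(w + i C0)`, multiplied above and below by `-i/r`: `(C0 w + i)/r / ((-i w + C0)/r)`.
Composition of `(α, β)` maps: `conj` of a Moebius map of this form applied to `conj z` has the
parameters `conj α, conj β`.) -/
def St_CTA : Prop :=
  (∀ w : W, Continuous (act w)) ∧
  (∀ w : Ev, ∃ α β : ℂ, ‖α‖ ^ 2 - ‖β‖ ^ 2 = 1 ∧ ∀ z : DD,
    ((act (w : W) z : DD) : ℂ) = (α * z + β) / (conj β * z + conj α)) ∧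
  ∀ w : Ev, ∃ α β : ℂ, ‖α‖ ^ 2 - ‖β‖ ^ 2 = 1 ∧ ∀ z : DD,
    ((act ((w : W) * gen 0) z : DD) : ℂ) = (α * conj (z : ℂ) + β) / (conj β * conj (z : ℂ) + conj α)

end Pool.Agent.Helper69.QG
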