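import Pool.Agent.Helper69.QG.St1

/-!
# Project QD, part C, geometric half: folding map, shear, action of `SL(2,ℤ)`.
Statements with proofs in the docstrings.  Notation: `a,b,c,d = gen 0,1,2,3`.
-/

open Complex Set Metric
open scoped ComplexConjugate

namespace Pool.Agent.Helper69.QG

/-- The closed unit square. -/
def Sq : Set ℂ := {u | 0 ≤ u.re ∧ u.re ≤ 1 ∧ 0 ≤ u.im ∧ u.im ≤ 1}

/-- Inverse of `psi` on the unit square. -/
noncomputable def chi (u : ℂ) : ℂ :=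
  ((1 / (1 + Real.sqrt (1 - tau ^ 2 * ‖u‖ ^ 2)) : ℝ) : ℂ) * ((tau : ℂ) * u)

open Classical in
/-- The point of the tile with flat coordinate `u`. -/
noncomputable def pt (u : ℂ) : DD :=
  if h : chi u ∈ ball (0 : ℂ) 1 then ⟨chi u, h⟩ else ⟨0, mem_ball_self one_pos⟩

/-- The folding map. -/
structure IsPsi (Psi : DD → ℂ) : Prop where
  cont : Continuous Psi
  tile : ∀ z ∈ Pc, Psi z = psi z
  eqv : ∀ (w : W) (z : DD), Psi (act w z) = flat w (Psi z)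

/-- **PCH** (flat coordinate).  `psi z = (2/(tau (1+‖z‖²))) z` is the Klein coordinate divided by
`tau`.  With `n = ‖z‖² < 1`, `k = tau * psi z = 2z/(1+n)`, `‖k‖² = 4n/(1+n)²`,
`√(1-‖k‖²) = (1-n)/(1+n)`, so `chi (psi z) = k/(1 + (1-n)/(1+n)) = z`.  Conversely for
`‖tau u‖ < 1` (true on `Sq`: `tau² ‖u‖² ≤ 2(√2-1) < 1`) `z = chi u` has `‖z‖ < 1` and `psi z = u`.
`z ∈ Pc` iff `psi z ∈ Sq` by the first item of St_PBD (`tau * C0 = 1`).  Walls: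
`act (gen s) z = z` iff `R s z = z` iff `lf (Xm z) (ev s) = 0`, i.e. `re psi = 0`, `re psi = 1`,
`im psi = 0`, `im psi = 1` for `s = 0,1,2,3`. -/
def St_PCH : Prop :=
  (∀ z ∈ Pc, psi z ∈ Sq ∧ pt (psi z) = z) ∧
  (∀ u ∈ Sq, pt u ∈ Pc ∧ ((pt u : DD) : ℂ) = chi u ∧ psi (pt u) = u) ∧
  ContinuousOn pt Sq ∧ ContinuousOn psi (ball 0 1) ∧
  (∀ z ∈ Pc, (act (gen 0) z = z ↔ (psi z).re = 0) ∧ (act (gen 1) z = z ↔ (psi z).re = 1) ∧
    (act (gen 2) z = z ↔ (psi z).im = 0) ∧ (act (gen 3) z = z ↔ (psi z).im = 1))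

/-- **EVL** (homomorphisms on the even subgroup).  *Existence*: `W` acts on `G × Bool`:
`gen s` maps `(g, false)` to `(p s * g, true)` and `(g, true)` to `((p s)⁻¹ * g, false)`; this is
liftable: `gen s gen t` maps `(g, false)` to `((p s)⁻¹ p t g, false)` and `(g, true)` to
`(p s (p t)⁻¹ g, true)`.  Let `ρ : W →* Perm (G × Bool)` be the lift.  `ρ w` commutes with right
multiplication by `G`, and for `w ∈ Ev` (length parity `0`; induction on words, or: `ρ` composed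
with the second projection is the parity) preserves the second coordinate; define `f w` by
`ρ w (1, true) = (f w, true)`; `f (w w') = f w * f w'`.
`gen s * gen 0` maps `(1,true)` to `((p 0)⁻¹, false) = (1, false)` to `(p s, true)`.
*Uniqueness*: `Ev` is generated by the elements `gen s * gen 0`: an even word is a product of
`gen s * gen t = (gen s * gen 0) * (gen t * gen 0)⁻¹`. -/
def St_EVL : Prop :=
  (∀ s, gen s * gen 0 ∈ Ev) ∧
  (∀ (G : Type) [Group G] (p : Fin 4 → G), p 0 = 1 → (∀ s t, (p s * (p t)⁻¹) ^ (cm s t) = 1) →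
    (∀ s t, ((p s)⁻¹ * p t) ^ (cm s t) = 1) →
    ∃ f : Ev →* G, ∀ (s : Fin 4) (h : gen s * gen 0 ∈ Ev), f ⟨gen s * gen 0, h⟩ = p s) ∧
  (∀ (G : Type) [Group G] (f f' : Ev →* G),
    (∀ (s : Fin 4) (h : gen s * gen 0 ∈ Ev), f ⟨gen s * gen 0, h⟩ = f' ⟨gen s * gen 0, h⟩) →
    f = f') ∧
  (∀ w : W, w ∈ Ev ∨ w * gen 0 ∈ Ev) ∧ (∀ s, gen s ∉ Ev)

/-- **AUT** (the automorphism of the shear).  `A = ba`, `x = ca`, `y = da` in `Ev`;
`x² = y² = (A x)² = 1`, `(A y)⁴ = 1`, hence `A x A = x`.  Apply St_EVL with `G = Ev`,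
`p = (1, A, A⁻¹ x, y)`: the relations are `(p 0, p 2)`: `(A⁻¹x)² = 1`; `(p 0, p 3)`: `y² = 1`;
`(p 1, p 2)`: `(A x⁻¹ A)² = x² = 1` and `(A⁻² x)² = 1` (`x A⁻² = A² x`); `(p 1, p 3)`:
`(A y⁻¹)⁴ = 1`, `(A⁻¹ y)⁴ = 1` (conjugate of the inverse).  The same with
`p = (1, A, A x, y)` gives the inverse (compositions agree with the identity on the generators,
St_EVL uniqueness).  Second item: `θ` is the automorphism of `W` exchanging `a ↔ c`, `b ↔ d` (the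
Coxeter matrix is symmetric under it; `CoxeterSystem.lift`). -/
def St_AUT : Prop :=
  (∃ φ : Ev ≃* Ev, ∀ (h1 : gen 1 * gen 0 ∈ Ev) (h2 : gen 2 * gen 0 ∈ Ev) (h3 : gen 3 * gen 0 ∈ Ev),
    φ ⟨gen 1 * gen 0, h1⟩ = ⟨gen 1 * gen 0, h1⟩ ∧
    φ ⟨gen 2 * gen 0, h2⟩ = ⟨gen 1 * gen 0, h1⟩⁻¹ * ⟨gen 2 * gen 0, h2⟩ ∧
    φ ⟨gen 3 * gen 0, h3⟩ = ⟨gen 3 * gen 0, h3⟩) ∧
  ∃ θ : W ≃* W, θ (gen 0) = gen 2 ∧ θ (gen 1) = gen 3 ∧ θ (gen 2) = gen 0 ∧ θ (gen 3) = gen 1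

/-- **FLD** (extension from the double tile).  For `z : DD` choose `w`, `p ∈ Pc` with
`z = act w p` (St_CVR) and put `F z = G(w,p)`, `G(w,p) = r w (f0 p)` if `w ∈ Ev`,
`G(w,p) = r (w * gen 0) (f1 p)` if `w * gen 0 ∈ Ev`.  *Well defined*: if `act w p = act w' p'` then
`act (w'⁻¹ w) p = p' ∈ Pc`, so `p' = p` and `w'⁻¹ w` is in the closure of the `gen s` fixing `p`
(St_STZ); so it is enough that `G(w gen s, p) = G(w,p)` when `gen s` fixes `p`.  `w` even: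
`G(w gen s, p) = r (w gen s gen 0)(f1 p) = r w (r (gen s gen 0) (f1 p)) = r w (f0 p)`.  `w` odd:
`G(w gen s, p) = r (w gen s)(f0 p) = r (w gen s) (r (gen s gen 0) (f1 p)) = r (w gen 0)(f1 p)`.
Equivariance under `Ev` is clear from the definition (`act v z = act (v w) p`). -/
def St_FLD : Prop :=
  ∀ (Y : Type) (r : Ev →* Equiv.Perm Y) (f0 f1 : DD → Y),
    (∀ (s : Fin 4) (h : gen s * gen 0 ∈ Ev), ∀ z ∈ Pc, act (gen s) z = z →
      r ⟨gen s * gen 0, h⟩ (f1 z) = f0 z) →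
    ∃ F : DD → Y, (∀ z ∈ Pc, F z = f0 z) ∧ (∀ z ∈ Pc, F (act (gen 0) z) = f1 z) ∧
      ∀ (w : Ev) (z : DD), F (act (w : W) z) = r w (F z)

/-- **FLC** (continuity).  The sets `act w '' Pc` are closed (compact) and cover (St_CVR); the family
is locally finite (St_LFN: every point has a neighbourhood `‖z‖ < r`).  On `act w '' Pc`, `w` even,
`F = r w ∘ F ∘ act w⁻¹`, continuous as `F` is continuous on `Pc`; `w` odd: `w = w' gen 0`,
`F = r w' ∘ F ∘ act w'⁻¹`, and `F` is continuous on `act (gen 0) '' Pc`.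
`LocallyFinite.continuous`. -/
def St_FLC : Prop :=
  ∀ (Y : Type) [TopologicalSpace Y] (r : Ev →* Equiv.Perm Y) (F : DD → Y),
    (∀ w, Continuous (r w)) → ContinuousOn F Pc → ContinuousOn F (act (gen 0) '' Pc) →
    (∀ (w : Ev) (z : DD), F (act (w : W) z) = r w (F z)) → Continuous F

/-- **PSX** (existence of the folding map).  St_FLD with `Y = ℂ`, `r = flat` restricted to `Ev`,
`f0 = psi`, `f1 = fr 0 ∘ psi`: condition: for `z` on the wall `s`: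
`flat (gen s * gen 0) (fr 0 (psi z)) = fr s (psi z) = psi z` by St_PCH (walls).  Then
`F (act (gen 0) z) = fr 0 (F z)` for all `z`: write `z = act w p`; `w` even:
`F (act (gen 0 * w) p) = F (act (gen 0 * w * gen 0) (act (gen 0) p)) =
flat (gen 0 * w * gen 0) (fr 0 (psi p)) = fr 0 (flat w (psi p))`; `w` odd similarly.  So `F` is
equivariant under `W`.  Continuity: St_FLC. -/
def St_PSX : Prop := ∃ Psi : DD → ℂ, IsPsi Psi

/-- The shear fixing `1 + i`. -/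
def shf (u : ℂ) : ℂ := ⟨u.re + u.im - 1, u.im⟩

/-- **SHE** (the shear map).  `φ` from St_AUT, `r w = act (φ w)`, and with `u = psi z`, `X = u.re`,
`Y = u.im`: `f0 z = pt (X+Y-1, Y)` if `1 ≤ X + Y`, else `act a (pt (1-X-Y, Y))`;
`f1 z = act a (pt (1+X-Y, Y))` if `X ≤ Y`, else `act (a b) (pt (1-X+Y, Y))`.  All the points are in
`Sq`.  *Conditions of St_FLD* (walls by St_PCH):
`s = 0` (`X = 0`): `f1 = act a (pt (1-Y, Y)) = f0` (if `Y = 1`: `f0 = pt (0,1)`, fixed by `act a`).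
`s = 1` (`X = 1`): `φ(ba) = ba`; `f1 = act (ab) (pt (Y,Y))` (also if `Y = 1`, since `act b` fixes
`pt (1,1)`), `act (ba) f1 = pt (Y,Y) = f0`.
`s = 2` (`Y = 0`): `φ(ca) = (ab)(ca)`; `f1 = act (ab) (pt (1-X,0))` (also for `X = 0`), and
`abca ab = ab cb = a c` (`ca = ac`, `cb = bc`), `act (ac) (pt (1-X,0)) = act a (pt (1-X,0)) = f0`
(`act c` fixes it; for `X = 1` also `act a` fixes `pt (0,0)`).
`s = 3` (`Y = 1`): `φ(da) = da`; `f1 = act a (pt (X,1))`, `act (d a a) (pt (X,1)) = pt (X,1) = f0`.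
Continuity on `Pc` and `act a '' Pc`: piecewise on closed sets, `pt` is continuous on `Sq`
(St_PCH); then St_FLC (`act w` is continuous, St_CTA). -/
def St_SHE : Prop :=
  ∃ (φ : Ev ≃* Ev) (F : DD → DD), Continuous F ∧
    (∀ (h1 : gen 1 * gen 0 ∈ Ev) (h2 : gen 2 * gen 0 ∈ Ev) (h3 : gen 3 * gen 0 ∈ Ev),
      φ ⟨gen 1 * gen 0, h1⟩ = ⟨gen 1 * gen 0, h1⟩ ∧
      φ ⟨gen 2 * gen 0, h2⟩ = ⟨gen 1 * gen 0, h1⟩⁻¹ * ⟨gen 2 * gen 0, h2⟩ ∧
      φ ⟨gen 3 * gen 0, h3⟩ = ⟨gen 3 * gen 0, h3⟩) ∧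
    (∀ (w : Ev) (z : DD), F (act (w : W) z) = act ((φ w : Ev) : W) (F z)) ∧
    (∀ u ∈ Sq, 1 ≤ u.re + u.im → F (pt u) = pt ⟨u.re + u.im - 1, u.im⟩) ∧
    (∀ u ∈ Sq, u.re + u.im ≤ 1 → F (pt u) = act (gen 0) (pt ⟨1 - u.re - u.im, u.im⟩)) ∧
    (∀ u ∈ Sq, u.re ≤ u.im → F (act (gen 0) (pt u)) = act (gen 0) (pt ⟨1 + u.re - u.im, u.im⟩)) ∧
    (∀ u ∈ Sq, u.im ≤ u.re →
      F (act (gen 0) (pt u)) = act (gen 0 * gen 1) (pt ⟨1 - u.re + u.im, u.im⟩))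

/-- **SHH** (the shear is a homeomorphism).  `F`, `φ` from St_SHE.  `F' = act a ∘ F ∘ act a`.
`F' ∘ F` commutes with `Ev`: `F' (act w z) = act (a φ(a w a) a) (F' z)` and
`a φ(a φ(w) a) a = w` for the generators `w = ba, ca, da` (`a(ba)a = ab = (ba)⁻¹`,
`a(ca)a = ca`, `a(da)a = da`; St_EVL uniqueness).  *`F'(F z) = z`*: by equivariance and St_CVR it is
enough for `z = pt u` and `z = act a (pt u)`, `u = (X,Y) ∈ Sq`:
`X+Y ≥ 1`: `F z = pt (X+Y-1,Y)`, `F' (pt v) = act a (F (act a (pt v)))`, `v = (X+Y-1, Y)`,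
`v.re ≤ v.im`: `F (act a (pt v)) = act a (pt (X,Y))`, so `F' (F z) = pt u`.
`X+Y ≤ 1`: `F z = act a (pt v)`, `v = (1-X-Y,Y)`, `F' (act a (pt v)) = act a (F (pt v))`,
`v.re + v.im = 1 - X ≤ 1`: `F (pt v) = act a (pt (X,Y))`.
`z = act a (pt u)`, `X ≤ Y`: `F z = act a (pt v)`, `v = (1+X-Y,Y)`, `v.re + v.im = 1 + X ≥ 1`:
`F (pt v) = pt (X,Y)`, `F' (F z) = act a (pt u)`.
`Y ≤ X`: `F z = act (ab) (pt v)`, `v = (1-X+Y,Y)`; `F' (act (ab) (pt v)) = act a (F (act b (pt v)))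
= act a (F (act (ba) (act a (pt v)))) = act (a b a) (F (act a (pt v)))`; if `X < 1` then
`v.im ≤ v.re`, `F (act a (pt v)) = act (ab) (pt (X,Y))`, total `act (aba ab) (pt u) = act a (pt u)`;
if `X = 1`, `v = (Y,Y)`: the same formula holds (`v.im ≤ v.re`).
Then `F ∘ F' = act a ∘ (F' ∘ F) ∘ act a = id`.  So `h = F` is a homeomorphism.
*Folding map*: `flat (φ w) ∘ shf = shf ∘ flat w` for `w ∈ Ev`: check on `ba : u ↦ u + 2`,
`ca : u ↦ -u` (`φ(ca) : u ↦ -u - 2`), `da : u ↦ -u + 2i`.  `Psi (F z) = shf (Psi z)` for `z = pt u`,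
`z = act a (pt u)` by the formulas (`Psi (pt u) = u`, `Psi (act a z) = -conj (Psi z)`,
`flat (ab) u = -conj (2 - conj u) = u - 2`), hence for all `z`. -/
def St_SHH : Prop :=
  ∃ (h : DD ≃ₜ DD) (φ : Ev ≃* Ev), (∀ (w : Ev) (z : DD), h (act (w : W) z) = act ((φ w : Ev) : W) (h z)) ∧
    ∀ Psi, IsPsi Psi → ∀ z, Psi (h z) = shf (Psi z)

/-- The linear action of `SL(2,ℤ)` on `ℂ = ℝ²`. -/
def slin (γ : Matrix.SpecialLinearGroup (Fin 2) ℤ) (u : ℂ) : ℂ :=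
  ⟨(γ 0 0 : ℝ) * u.re + (γ 0 1 : ℝ) * u.im, (γ 1 0 : ℝ) * u.re + (γ 1 1 : ℝ) * u.im⟩

/-- **AFF** (action of the whole group).  The property is closed under products and inverses
(`slin` is multiplicative and additive).  It holds for `T = (1 1; 0 1)` by St_SHH (`v = -1`).  For
`S = (0 -1; 1 0)`: `J z = i conj z` is a homeomorphism of the disc, `J ∘ R s ∘ J = R (σ s)`, `σ`
exchanging `0 ↔ 2`, `1 ↔ 3`, so `J (act w z) = act (θ w) (J z)` (`θ` from St_AUT, induction), and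
`Psi (J z) = i conj (Psi z)` (on the tile `psi (i conj z) = i conj (psi z)`, `J` preserves `Pc`; in
general by equivariance: `fr (σ s) (i conj u) = i conj (fr s u)`).  `h = J ∘ act c`, i.e.
`h z = i z`, `Psi (h z) = i Psi z` (`Psi (act c z) = conj (Psi z)`), `h (act w z) = act (θ (c w c)) (h z)`,
and `w ↦ θ (c w c)` preserves `Ev` (length parity).  `S`, `T` generate `SL(2,ℤ)`
(`Matrix.SpecialLinearGroup.SL2Z_generators` in Mathlib). -/
def St_AFF : Prop :=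
  ∀ γ : Matrix.SpecialLinearGroup (Fin 2) ℤ, ∃ (h : DD ≃ₜ DD) (φ : Ev ≃* Ev) (v : ℂ),
    (∀ (w : Ev) (z : DD), h (act (w : W) z) = act ((φ w : Ev) : W) (h z)) ∧
    ∀ Psi, IsPsi Psi → ∀ z, Psi (h z) = slin γ (Psi z) + v

end Pool.Agent.Helper69.QG
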