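import Pool.Agent.Helper69.QG.St2
import Pool.Agent.Helper35.PQF.Defs

/-!
# Project QD, part C, geometric half: surface groups of every genus in the Coxeter group.
Statements with proofs in the docstrings.  `SurfaceGroup g`, `relator g`, `SL` are those of
`Pool.Agent.Helper35.PM`; in the genus `g` group `aᵢ = of (i, false)`, `bᵢ = of (i, true)`.
-/

open Complex Set Metric
open scoped ComplexConjugate

namespace Pool.Agent.Helper69.QG

open Pool.Agent.Helper35.PM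

/-- translation `A = ba` -/
def wA : W := gen 1 * gen 0

/-- translation `B = dc` -/
def wB : W := gen 3 * gen 2

/-- `a₀` in genus two -/
def wa1 {G : Type} [Group G] (A B : G) : G := A ^ 2 * B * (A ^ 3)⁻¹
/-- `b₀` in genus two -/
def wb1 {G : Type} [Group G] (A B : G) : G := A * B⁻¹ * A * B * (A ^ 4)⁻¹
/-- `a₁` in genus two -/
def wa2 {G : Type} [Group G] (A B : G) : G := A * B⁻¹ * A * B
/-- `b₁` in genus two -/
def wb2 {G : Type} [Group G] (A B : G) : G := B * A⁻¹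

/-- generators of `SurfaceGroup g` -/
def sgen (g : ℕ) (i : Fin g) (e : Bool) : SurfaceGroup g := PresentedGroup.of (i, e)

/-- cosets: four squares, and the two reflections `a`, `c` -/
abbrev Ste : Type := Fin 4 × Bool × Bool

/-- the base coset -/
def ste0 : Ste := (0, false, false)

/-- next coset -/
def stn : Fin 4 → Ste → Ste
  | 0, (i, α, β) => (i, !α, β)
  | 1, (i, α, β) => (if α then i - 1 else i + 1, !α, β)
  | 2, (i, α, β) => (i, α, !β)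
  | 3, (i, α, β) => (![1, 0, 3, 2] i, α, !β)

/-- the labels `y i` -/
def yl {G : Type} [Group G] (a1 b1 a2 b2 : G) : Fin 4 → G := ![b2, b2 * a2, a1, a1 * b1⁻¹]

/-- label of the step -/
def stc {G : Type} [Group G] (a1 b1 a2 b2 : G) : Fin 4 → Ste → G
  | 0, _ => 1
  | 1, (i, α, _) => if α then (if i = 0 then (b1⁻¹ * a2)⁻¹ else 1)
      else (if i = 3 then b1⁻¹ * a2 else 1)
  | 2, _ => 1
  | 3, (i, _, β) => if β then (yl a1 b1 a2 b2 (![1, 0, 3, 2] i))⁻¹ else yl a1 b1 a2 b2 i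

/-- representatives of the cosets -/
def repc (t : Ste) : W :=
  wA ^ (t.1 : ℕ) * (if t.2.1 then gen 0 else 1) * (if t.2.2 then gen 2 else 1)

/-- **WRD** (words).  Put `z = (A B A⁻¹ B⁻¹)²`, central, `z² = 1`.  Write `x = A⁴`, `y₁ = B A⁻¹`,
`y₂ = A B`, `y₃ = A² B A⁻³`, `y₄ = A³ B A⁻²`.  `y₂ x⁻¹ y₃⁻¹ y₄ y₁⁻¹ = [A,B]² = z` and
`y₃ y₄⁻¹ x y₁ y₂⁻¹ = A [A,B]² A⁻¹ = z` (expand).  With `a2 = y₁⁻¹ y₂`, `b2 = y₁`, `a1 = y₃`,
`b1 = a2 x⁻¹` the first gives `y₄ = z y₃ x y₂⁻¹ y₁`; substitute in the second: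
`z⁻¹ y₃ y₁⁻¹ y₂ x⁻¹ y₃⁻¹ x y₁ y₂⁻¹ = z`, and `[a1,b1][a2,b2] = y₃ (y₁⁻¹y₂ x⁻¹) y₃⁻¹ x y₁ y₂⁻¹`
(expand), so it is `z² = 1`.  (Numerically checked.)
Second item: `c = [a2,b2]`, `[a1,b1] = c⁻¹`, so `b1 a1⁻¹ b1⁻¹ = a1⁻¹ c⁻¹`,
`[a1ⁿ,b1] = a1ⁿ (a1⁻¹ c⁻¹)ⁿ`; induction on `n`:
`[a1ⁿ,b1] * Π_{i<n} a1ⁱ c a1⁻ⁱ = 1` (`a1ⁿ⁺¹ (a1⁻¹c⁻¹)ⁿ⁺¹ = (a1ⁿ c⁻¹ a1⁻ⁿ) * a1ⁿ (a1⁻¹c⁻¹)ⁿ`: use
`a1ⁿ⁺¹ (a1⁻¹ c⁻¹) = a1ⁿ c⁻¹`). -/
def St_WRD : Prop :=
  (∀ (G : Type) [Group G] (A B : G), (∀ x : G, Commute ((A * B * A⁻¹ * B⁻¹) ^ 2) x) →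
    (A * B * A⁻¹ * B⁻¹) ^ 4 = 1 →
    wa1 A B * wb1 A B * (wa1 A B)⁻¹ * (wb1 A B)⁻¹ *
      (wa2 A B * wb2 A B * (wa2 A B)⁻¹ * (wb2 A B)⁻¹) = 1) ∧
  ∀ (G : Type) [Group G] (a1 b1 a2 b2 : G),
    a1 * b1 * a1⁻¹ * b1⁻¹ * (a2 * b2 * a2⁻¹ * b2⁻¹) = 1 → ∀ n : ℕ,
      a1 ^ n * b1 * (a1 ^ n)⁻¹ * b1⁻¹ *
        (List.ofFn fun i : Fin n => (a1 ^ (i : ℕ) * a2 * (a1 ^ (i : ℕ))⁻¹) *
          (a1 ^ (i : ℕ) * b2 * (a1 ^ (i : ℕ))⁻¹) * (a1 ^ (i : ℕ) * a2 * (a1 ^ (i : ℕ))⁻¹)⁻¹ *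
          (a1 ^ (i : ℕ) * b2 * (a1 ^ (i : ℕ))⁻¹)⁻¹).prod = 1

/-- **PRM** (coset action with labels).  `σ s (x, t) = (x * stc s t, stn s t)` on `G × Ste` is an
involution for every `s`, and the family is liftable: all the relations of type `2` are immediate
(the steps `0`, `2` change one Boolean, the step `1` uses only `i, α`, the step `3` uses only
`i, β`... check: steps `0` and `3` commute, `1` and `2` commute, `0` and `2` commute), and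
`(σ 1 ∘ σ 3)⁴ = 1`: for each of the 16 cosets the product of the eight labels is `1` or a cyclic
rotation of `R = a1 b1 a1⁻¹ b1⁻¹ a2 b2 a2⁻¹ b2⁻¹` or of `R⁻¹` (checked by computer), hence `1`.
(Prove first that all rotations of `R` are `1`: `mul_eq_one_iff_eq_inv`, conjugation.)
`ρ = cs.lift`.  Items 3-6: `ρ w⁻¹ (x, t)` follows the letters of `w` from left to right:
for `w = g₁ ⋯ g_k` a word in the generators, `w⁻¹ = g_k ⋯ g₁`.  With `A = ba`, `A⁻¹ = ab`, `B = dc`,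
`B⁻¹ = cd`: the word of `A` is the step `1` then the step `0`, i.e. `(i, false, β)`, `i < 3`, goes to
`i + 1` with label `1`, `i = 3` to `0` with label `b1⁻¹ a2`.  Compute the four words from `ste0`. -/
def St_PRM : Prop :=
  ∀ (G : Type) [Group G] (a1 b1 a2 b2 : G),
    a1 * b1 * a1⁻¹ * b1⁻¹ * (a2 * b2 * a2⁻¹ * b2⁻¹) = 1 →
    ∃ ρ : W →* Equiv.Perm (G × Ste),
      (∀ s x t, ρ (gen s) (x, t) = (x * stc a1 b1 a2 b2 s t, stn s t)) ∧
      (∀ x, ρ (wa1 wA wB)⁻¹ (x, ste0) = (x * a1, ste0)) ∧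
      (∀ x, ρ (wb1 wA wB)⁻¹ (x, ste0) = (x * b1, ste0)) ∧
      (∀ x, ρ (wa2 wA wB)⁻¹ (x, ste0) = (x * a2, ste0)) ∧
      ∀ x, ρ (wb2 wA wB)⁻¹ (x, ste0) = (x * b2, ste0)

/-- **RPT** (coset identities in `W`).  With `A = ba`, `B = dc`: `b = A a`, `d = B c`,
`a A a = A⁻¹`, `c A = A c`, `c B c = B⁻¹`, `a B = B a`, `a c = c a`, and
`(A B A⁻¹ B⁻¹)² = (bd)⁴ = 1` (`[A,B] = b a d c a b c d = (bd)²`).  With
`a1 = wa1 A B`, …: `b1⁻¹ a2 = A⁴`, `b2 = B A⁻¹`, `b2 a2 = A B`, `a1 = A² B A⁻³`,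
`a1 b1⁻¹ = A³ B A⁻²` (the last one uses `[A,B]² = 1`).  64 identities `repc t * gen s =
label * repc (next)`; for `s = 1`: `Aⁱ a^α c^β * A a = Aⁱ A^{±1} a^{1-α} c^β`; for `s = 3`:
`Aⁱ a^α c^β * B c = Aⁱ B^{±1} a^α c^{1-β}` and `Aⁱ B = y_i A^{v(i)}`, `Aⁱ B⁻¹ = (y_{v(i)})⁻¹ A^{v(i)}`,
`v = ![1,0,3,2]`.  (Numerically checked.) -/
def St_RPT : Prop :=
  (wA * wB * wA⁻¹ * wB⁻¹) ^ 2 = 1 ∧ (∀ (s : Fin 4) (t : Ste),
    repc t * gen s = stc (wa1 wA wB) (wb1 wA wB) (wa2 wA wB) (wb2 wA wB) s t * repc (stn s t))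

/-- **IOT** (genus two).  `ι` exists by St_WRD (`z = 1` by St_RPT) and
`PresentedGroup.toGroup`.  *Cosets*: the set of `w` of the form `ι x * repc t` contains `1` and is
stable under right multiplication by `gen s` (St_RPT; the labels are in the image of `ι`), so it is
everything.  *Injectivity*: `ρ` from St_PRM for `G = SurfaceGroup 2` and its generators (the relation
holds); `ρ (ι y)⁻¹ (x, ste0) = (x * y, ste0)` for all `y` (closure of the generators; the property is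
multiplicative and stable under inverses); so `ι y = 1` gives `y = 1`.  *Last item*: compose with the
second projection: St_PRM for the trivial group gives `ρ' : W →* Perm (Unit-like × Ste)`, i.e.
a homomorphism to `Perm Ste` with `gen s ↦ stn s`; the images of the generators fix `ste0`, and
`(gen 1 gen 3)²` maps `(i, α, β)` to `(i + 2, α, β)` (`decide`).  Even: `wA`, `wB ∈ Ev`.
Translations: `flat wA u = u + 2`, `flat wB u = u + 2i`. -/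
def St_IOT : Prop :=
  ∃ ι : SurfaceGroup 2 →* W,
    (ι (sgen 2 0 false) = wa1 wA wB ∧ ι (sgen 2 0 true) = wb1 wA wB ∧
      ι (sgen 2 1 false) = wa2 wA wB ∧ ι (sgen 2 1 true) = wb2 wA wB) ∧
    Function.Injective ι ∧ (∀ x, ι x ∈ Ev) ∧ (∀ x, ∃ t : ℂ, ∀ u, flat (ι x) u = u + t) ∧
    (∀ w : W, ∃ x, ∃ t : Ste, w = ι x * repc t) ∧
    ∃ ρ : W →* Equiv.Perm Ste, (∀ x, ρ (ι x) ste0 = ste0) ∧ ∀ t, ρ ((gen 1 * gen 3) ^ 2) t ≠ t

/-- **GNG** (genus `n + 1` in genus two).  `κ` exists by the second item of St_WRD (the relator of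
genus `n+1` is `[a₀,b₀] * Π_{i<n} [a_{i+1}, b_{i+1}]`, `List.ofFn` with `Fin.cons`/`ofFn_succ`).
*Cosets*: stable under right multiplication by the generators of the genus two group: `a₀`: `j ↦ j+1`,
`a₀ⁿ = κ(a₀)`; `a₁ , b₁`: `a₀ʲ a₁ = κ(a_{j+1}) a₀ʲ`; `b₀`: `a₀ʲ b₀ a₀⁻ʲ = κ(β_j)`, where
`β_j = c_{j-1}⁻¹ ⋯ c_0⁻¹ b₀`, `c_i = [a_{i+1}, b_{i+1}]` in the genus `n+1` group (because
`a₀ b₀ a₀⁻¹ = [a₁,b₁]⁻¹ b₀` in genus two); and under inverses of generators (the map of cosets is a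
bijection of a finite set; or treat them directly).
*Injectivity*: with `S = SurfaceGroup (n+1)` define permutations of `S × Fin n` (or `ZMod n`):
`a₀ : (x, j) ↦ (x, j+1)` if `j < n-1`, `(x, n-1) ↦ (x a₀, 0)`; `b₀ : (x,j) ↦ (x β_j, j)`;
`a₁ : (x,j) ↦ (x a_{j+1}, j)`; `b₁ : (x,j) ↦ (x b_{j+1}, j)`; the product `[a₀,b₀][a₁,b₁]`, applied
from left to right, is the identity: for `j < n-1` the label is `β_{j+1} β_j⁻¹ c_j = 1`, for
`j = n-1`: `a₀ b₀ a₀⁻¹ β_{n-1}⁻¹ c_{n-1} = [a₀,b₀] c_0 ⋯ c_{n-1} = 1` (the relator of genus `n+1`).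
This gives an anti-homomorphism (right action), i.e. a homomorphism
`θ : SurfaceGroup 2 →* (Perm (S × Fin n))ᵐᵒᵖ` (or use inverses), and
`θ(κ y)` maps `(x, 0)` to `(x y, 0)` for the generators `y`, hence for all `y`; so `κ y = 1` implies
`y = 1`. -/
def St_GNG : Prop :=
  ∀ n : ℕ, 1 ≤ n → ∃ κ : SurfaceGroup (n + 1) →* SurfaceGroup 2, Function.Injective κ ∧
    ∀ y : SurfaceGroup 2, ∃ x, ∃ j < n, y = κ x * (sgen 2 0 false) ^ j

/-- **SLM** (matrices).  `r = √(C0²-1)`, `Â = r⁻¹ (C0, 1; 1, C0)`, `B̂ = r⁻¹ (C0, i; -i, C0)` in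
`SL(2,ℂ)`, and `act wA z = (C0 z + 1)/(z + C0)`, `act wB z = (C0 z + i)/(-i z + C0)` (composition
of `R 1, R 0` and `R 3, R 2`).  `(Â B̂ Â⁻¹ B̂⁻¹)² = -1`, central of order two: use
`r² = √2`, `C0² = 1 + √2`: the trace of the commutator is `0` (numerically checked), and a matrix
of determinant one and trace zero has square `-1`.  St_WRD gives the homomorphism `s`.  The formula
for `act (ι x)` holds for generators (words in `wA`, `wB`), products and inverses: the matrices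
`(p, q; conj q, conj p)` with `‖p‖² - ‖q‖² = 1` form a group whose Moebius action on the disc is
multiplicative. -/
def St_SLM : Prop :=
  ∀ ι : SurfaceGroup 2 →* W, (ι (sgen 2 0 false) = wa1 wA wB ∧ ι (sgen 2 0 true) = wb1 wA wB ∧
      ι (sgen 2 1 false) = wa2 wA wB ∧ ι (sgen 2 1 true) = wb2 wA wB) →
    ∃ s : SurfaceGroup 2 →* SL, ∀ x, ((s x : Mat) 1 0 = conj ((s x : Mat) 0 1)) ∧
      ((s x : Mat) 1 1 = conj ((s x : Mat) 0 0)) ∧
      ∀ z : DD, ((act (ι x) z : DD) : ℂ) =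
        ((s x : Mat) 0 0 * z + (s x : Mat) 0 1) / ((s x : Mat) 1 0 * z + (s x : Mat) 1 1)

/-- **FPF** (no fixed points).  Let `act (ι x) z = z`, `z = act w p`, `p ∈ Pc` (St_CVR).
`v = w⁻¹ ι(x) w` fixes `p`, so it is in the closure of the `gen s` fixing `p` (St_STZ).  By St_PCH
these `s` do not include both `0, 1` or both `2, 3`.  `flat v` is a translation (conjugate of one by
an isometry: all `flat w` are `u ↦ ± u + t` or `± conj u + t`).  The closure of `{gen s, gen t}` (one of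
`0,1` and one of `2,3`): if it is not `{1,3}` the two generators commute and the elements are `1`,
`gen s`, `gen t`, `gen s gen t`; only `1` acts as a translation; for `{1,3}` the elements are
`(bd)ᵏ`, `(bd)ᵏ b`, `k < 4`, and `flat (bd) u = 2 + 2i - u`; only `1` and `(bd)²` act as translations.
`v = 1` gives `ι x = 1`, `x = 1`.  `v = (bd)²`: `ρ (ι x)` fixes `t₀`, so `ρ v` fixes `ρ w⁻¹ t₀`,
excluded. -/
def St_FPF : Prop :=
  ∀ (S : Type) [Group S] (ι : S →* W), Function.Injective ι →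
    (∀ x, ∃ t : ℂ, ∀ u, flat (ι x) u = u + t) →
    (∃ ρ : W →* Equiv.Perm Ste, (∀ x, ρ (ι x) ste0 = ste0) ∧
      ∀ t, ρ ((gen 1 * gen 3) ^ 2) t ≠ t) →
    ∀ x, x ≠ 1 → ∀ z : DD, act (ι x) z ≠ z

/-- **CHS** (characteristic subgroup).  `K = range ι ≤ Ev` has finite index `m` in `Ev` (finitely many
cosets: `Ev` is contained in the union of the `ι x * t`, `t ∈ T`).  `Ev` is finitely generated (by the
`gen s * gen 0`, St_EVL), so there are finitely many homomorphisms `Ev →* Equiv.Perm (Fin m)`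
(determined by the images of the generators).  `N₀` = intersection of their kernels: finite index,
invariant under every automorphism `φ` (`f ∘ φ` is again one of them), contained in `K` (the action
of `Ev` on `Ev ⧸ K ≃ Fin m`: an element of the kernel fixes the coset `K`, so it is in `K`).
`N = ι⁻¹(N₀)`; it has finite index in `S`. -/
def St_CHS : Prop :=
  ∀ (S : Type) [Group S] (ι : S →* W), Function.Injective ι → (∀ x, ι x ∈ Ev) →
    (∃ T : Finset W, ∀ w : W, ∃ x, ∃ t ∈ T, w = ι x * t) →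
    ∃ N : Subgroup S, N.FiniteIndex ∧ N.Normal ∧ ∀ φ : Ev ≃* Ev, ∀ n ∈ N, ∀ h : ι n ∈ Ev,
      ∃ n' ∈ N, ι n' = ((φ ⟨ι n, h⟩ : Ev) : W)

/-- **SUR** (assembly: helper69): `ι_g = ι ∘ κ`. -/
def St_SUR : Prop :=
  ∀ g : ℕ, 2 ≤ g → ∃ (ι : SurfaceGroup g →* W) (s : SurfaceGroup g →* SL),
    Function.Injective ι ∧ (∀ x, ι x ∈ Ev) ∧ (∀ x, ∃ t : ℂ, ∀ u, flat (ι x) u = u + t) ∧
    (∃ T : Finset W, ∀ w : W, ∃ x, ∃ t ∈ T, w = ι x * t) ∧
    (∀ x, x ≠ 1 → ∀ z : DD, act (ι x) z ≠ z) ∧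
    (∀ x, ((s x : Mat) 1 0 = conj ((s x : Mat) 0 1)) ∧ ((s x : Mat) 1 1 = conj ((s x : Mat) 0 0)) ∧
      ∀ z : DD, ((act (ι x) z : DD) : ℂ) =
        ((s x : Mat) 0 0 * z + (s x : Mat) 0 1) / ((s x : Mat) 1 0 * z + (s x : Mat) 1 1)) ∧
    ∃ N : Subgroup (SurfaceGroup g), N.FiniteIndex ∧ N.Normal ∧
      ∀ φ : Ev ≃* Ev, ∀ n ∈ N, ∀ h : ι n ∈ Ev, ∃ n' ∈ N, ι n' = ((φ ⟨ι n, h⟩ : Ev) : W)

end Pool.Agent.Helper69.QG
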