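import Pool.Agent.Helper69.QG.St4

/-! # Project QD, part C, geometric half: assembly of the surface groups and of the package GPA -/

open Complex Set Metric MeasureTheory Filter Topology
open scoped ComplexConjugate

namespace Pool.Agent.Helper69.QG

open Pool.Agent.Helper35.PM

theorem sur (iot : St_IOT) (gng : St_GNG) (slm : St_SLM) (fpf : St_FPF) (chs : St_CHS) :
    St_SUR := by
  intro g hg
  obtain ⟨n, rfl⟩ : ∃ n, g = n + 1 := ⟨g - 1, by omega⟩
  have hn : 1 ≤ n := by omega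
  obtain ⟨ι, hgen, hinj, hev, htr, hcos, ρ, hρ1, hρ2⟩ := iot
  obtain ⟨κ, hκ, hκc⟩ := gng n hn
  obtain ⟨s, hs⟩ := slm ι hgen
  classical
  have hinj' : Function.Injective (ι.comp κ) := hinj.comp hκ
  have hev' : ∀ x, (ι.comp κ) x ∈ Ev := fun x => hev _
  have htr' : ∀ x, ∃ t : ℂ, ∀ u, flat ((ι.comp κ) x) u = u + t := fun x => htr _
  have hT : ∃ T : Finset W, ∀ w : W, ∃ x, ∃ t ∈ T, w = (ι.comp κ) x * t := by
    refine ⟨(Finset.range n ×ˢ (Finset.univ : Finset Ste)).image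
      (fun p => ι (sgen 2 0 false) ^ p.1 * repc p.2), fun w => ?_⟩
    obtain ⟨y, t, rfl⟩ := hcos w
    obtain ⟨x, j, hj, rfl⟩ := hκc y
    refine ⟨x, ι (sgen 2 0 false) ^ j * repc t, ?_, ?_⟩
    · exact Finset.mem_image.2 ⟨(j, t), Finset.mem_product.2
        ⟨Finset.mem_range.2 hj, Finset.mem_univ _⟩, rfl⟩
    · rw [map_mul, map_pow, MonoidHom.comp_apply, mul_assoc]
  refine ⟨ι.comp κ, s.comp κ, hinj', hev', htr', hT, ?_, fun x => hs (κ x), ?_⟩
  · exact fpf _ (ι.comp κ) hinj' htr' ⟨ρ, fun x => hρ1 _, hρ2⟩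
  · exact chs _ (ι.comp κ) hinj' hev' hT

open Pool.Agent.Helper20.QD in
theorem gpa (cta : St_CTA) (pbd : St_PBD) (pch : St_PCH) (psx : St_PSX) (aff : St_AFF)
    (sur : St_SUR) (slp : St_SLP) (fch : St_FCH) : St_GPA := by
  intro g hg
  obtain ⟨ι, s, hinj, hev, htr, hT, hfp, hs, N, hNf, hNn, hN⟩ := sur g hg
  obtain ⟨Psi, hPsi⟩ := psx
  obtain ⟨mu0, hB, hS⟩ := slp Psi hPsi
  have hpsE : ∀ z : DD, PsE Psi (z : ℂ) = Psi z := by
    intro z
    unfold PsE
    rw [dif_pos z.2]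
  have hmob : ∀ x (z : DD), mob (s x) (z : ℂ) = ((act (ι x) z : DD) : ℂ) := by
    intro x z
    rw [(hs x).2.2 z]
    rfl
  refine ⟨s, PsE Psi, mu0, N, fch _ ι s hinj hT hs, ?_, ?_, hB, hS, ?_, ?_, hNf, hNn, ?_⟩
  · intro x hx z hz h
    have := hmob x ⟨z, hz⟩
    rw [h] at this
    exact hfp x hx ⟨z, hz⟩ (Subtype.ext this.symm)
  · rw [continuousOn_iff_continuous_restrict]
    have : (D.domRestrict (PsE Psi)) = fun z : DD => Psi z := by
      funext z
      exact hpsE z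
    rw [this]
    exact hPsi.cont
  · intro x
    obtain ⟨t, ht⟩ := htr x
    refine ⟨t, fun z hz => ?_⟩
    have h1 := hmob x ⟨z, hz⟩
    have h2 := hpsE (act (ι x) ⟨z, hz⟩)
    have h3 := hpsE ⟨z, hz⟩
    have h4 := hPsi.eqv (ι x) ⟨z, hz⟩
    simp only at h1 h3
    rw [h1, h2, h4, ht, h3]
  · -- nonconstant: the points of the tile with flat coordinates 0 and 1
    have m0 : (0 : ℂ) ∈ Sq := by simp [Sq]
    have m1 : (1 : ℂ) ∈ Sq := by simp [Sq]
    obtain ⟨a1, -, a3⟩ := pch.2.1 0 m0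
    obtain ⟨b1, -, b3⟩ := pch.2.1 1 m1
    refine ⟨(pt 0 : DD), (pt 0 : DD).2, (pt 1 : DD), (pt 1 : DD).2, ?_⟩
    rw [hpsE, hpsE, hPsi.tile _ a1, hPsi.tile _ b1, a3, b3]
    exact zero_ne_one
  · intro γ
    obtain ⟨h, φ, v, h1, h2⟩ := aff γ
    have hN' : ∀ n ∈ N, ∃ n' ∈ N, ι n' = ((φ ⟨ι n, hev n⟩ : Ev) : W) :=
      fun n hn => hN φ n hn (hev n)
    have hN'' : ∀ n ∈ N, ∃ n' ∈ N, ι n' = ((φ.symm ⟨ι n, hev n⟩ : Ev) : W) :=
      fun n hn => hN φ.symm n hn (hev n)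
    choose! p hp1 hp2 using hN'
    choose! q hq1 hq2 using hN''
    have hpq : ∀ n ∈ N, q (p n) = n := by
      intro n hn
      apply hinj
      rw [hq2 _ (hp1 n hn)]
      have : (⟨ι (p n), hev (p n)⟩ : Ev) = φ ⟨ι n, hev n⟩ := Subtype.ext (hp2 n hn)
      rw [this, MulEquiv.symm_apply_apply]
    have hqp : ∀ n ∈ N, p (q n) = n := by
      intro n hn
      apply hinj
      rw [hp2 _ (hq1 n hn)]
      have : (⟨ι (q n), hev (q n)⟩ : Ev) = φ.symm ⟨ι n, hev n⟩ := Subtype.ext (hq2 n hn)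
      rw [this, MulEquiv.apply_symm_apply]
    let Φ : N ≃* N :=
      { toFun := fun n => ⟨p n, hp1 n n.2⟩
        invFun := fun n => ⟨q n, hq1 n n.2⟩
        left_inv := fun n => Subtype.ext (hpq n n.2)
        right_inv := fun n => Subtype.ext (hqp n n.2)
        map_mul' := by
          intro n m
          apply Subtype.ext
          apply hinj
          show ι (p ((n * m : N) : SurfaceGroup g)) = ι (p n * p m)
          rw [hp2 _ (n * m).2, map_mul, hp2 _ n.2, hp2 _ m.2]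
          have : (⟨ι ((n * m : N) : SurfaceGroup g), hev _⟩ : Ev) =
              ⟨ι n, hev n⟩ * ⟨ι m, hev m⟩ := by
            apply Subtype.ext
            show ι ((n : SurfaceGroup g) * m) = ι n * ι m
            exact map_mul _ _ _
          rw [this, map_mul]
          rfl }
    classical
    let H : ℂ → ℂ := fun z => if hz : z ∈ ball (0 : ℂ) 1 then ((h ⟨z, hz⟩ : DD) : ℂ) else 0
    let H' : ℂ → ℂ := fun z => if hz : z ∈ ball (0 : ℂ) 1 then ((h.symm ⟨z, hz⟩ : DD) : ℂ) else 0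
    have eH : ∀ z : DD, H z = ((h z : DD) : ℂ) := by
      intro z
      simp only [H]
      rw [dif_pos z.2]
    have eH' : ∀ z : DD, H' z = ((h.symm z : DD) : ℂ) := by
      intro z
      simp only [H']
      rw [dif_pos z.2]
    refine ⟨H, H', v, Φ, ?_, ?_, ?_, ?_, ?_, ?_, ?_, ?_⟩
    · intro z hz
      rw [show H z = ((h ⟨z, hz⟩ : DD) : ℂ) from eH ⟨z, hz⟩]
      exact (h ⟨z, hz⟩).2
    · intro z hz
      rw [show H' z = ((h.symm ⟨z, hz⟩ : DD) : ℂ) from eH' ⟨z, hz⟩]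
      exact (h.symm ⟨z, hz⟩).2
    · rw [continuousOn_iff_continuous_restrict]
      have : (D.domRestrict H) = fun z : DD => ((h z : DD) : ℂ) := by
        funext z
        exact eH z
      rw [this]
      exact continuous_subtype_val.comp h.continuous
    · rw [continuousOn_iff_continuous_restrict]
      have : (D.domRestrict H') = fun z : DD => ((h.symm z : DD) : ℂ) := by
        funext z
        exact eH' z
      rw [this]
      exact continuous_subtype_val.comp h.symm.continuous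
    · intro z hz
      rw [show H z = ((h ⟨z, hz⟩ : DD) : ℂ) from eH ⟨z, hz⟩, eH', Homeomorph.symm_apply_apply]
    · intro z hz
      rw [show H' z = ((h.symm ⟨z, hz⟩ : DD) : ℂ) from eH' ⟨z, hz⟩, eH,
        Homeomorph.apply_symm_apply]
    · intro z hz
      rw [show H z = ((h ⟨z, hz⟩ : DD) : ℂ) from eH ⟨z, hz⟩, hpsE, h2 Psi hPsi,
        show PsE Psi z = Psi ⟨z, hz⟩ from hpsE ⟨z, hz⟩]
    · intro n z hz
      rw [show mob (s n) z = ((act (ι n) ⟨z, hz⟩ : DD) : ℂ) from hmob n ⟨z, hz⟩, eH,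
        show H z = ((h ⟨z, hz⟩ : DD) : ℂ) from eH ⟨z, hz⟩]
      have e1 := h1 ⟨ι n, hev n⟩ ⟨z, hz⟩
      simp only at e1
      rw [e1, ← hp2 n n.2]
      exact (hmob (p n) (h ⟨z, hz⟩)).symm

end Pool.Agent.Helper69.QG
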